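import Pool.Agent.W2helper57.TUH.Chain

set_option autoImplicit false

/-!
# The configuration of a partition
-/

namespace Pool.Agent.W2helper57.TUH

open Finset

/-- the chain determined by its top interval -/
theorem exists_cfg (n : ℕ) : ∀ (D : ℕ → ℤ) (_ : ∀ j, 0 ≤ D j) (a b X : ℤ) (_ : a ≤ b)
    (_ : -X ≤ a) (_ : b + ∑ j ∈ range n, D j ≤ X),
    ∃ A B C : ℕ → ℤ, A n = a ∧ B n = b ∧
      (∀ j < n, C j = A (j + 1) + D j ∧ A j ≤ C j ∧ C j ≤ B j ∧ A j ≤ B (j + 1) ∧
        B (j + 1) ≤ B j ∧ B j - A j = |D j - (B (j + 1) - A (j + 1))|) ∧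
      (∀ j ≤ n, |A j| ≤ X ∧ |B j| ≤ X) ∧ ∀ j < n, |C j| ≤ X := by
  induction n with
  | zero =>
    intro D hD a b X hab hXa hbX
    refine ⟨fun _ => a, fun _ => b, fun _ => 0, rfl, rfl, fun j hj => by omega, ?_,
      fun j hj => by omega⟩
    intro j _
    simp only [range_zero, sum_empty, add_zero] at hbX
    change |a| ≤ X ∧ |b| ≤ X
    rw [abs_le, abs_le]
    omega
  | succ n ih =>
    intro D hD a b X hab hXa hbX
    rw [sum_range_succ] at hbX
    have hS : 0 ≤ ∑ j ∈ range n, D j := sum_nonneg fun j _ => hD j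
    have hDn := hD n
    obtain ⟨A, B, C, hA, hB, h1, h2, h3⟩ := ih D hD (min (a + D n) b) (max (a + D n) b) X
      (min_le_max) (by omega) (by omega)
    refine ⟨Function.update A (n + 1) a, Function.update B (n + 1) b,
      Function.update C n (a + D n), by simp, by simp, ?_, ?_, ?_⟩
    · intro j hj
      rcases Nat.lt_succ_iff_lt_or_eq.1 hj with h | h
      · rw [Function.update_of_ne (by omega), Function.update_of_ne (by omega),
          Function.update_of_ne (by omega), Function.update_of_ne (by omega),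
          Function.update_of_ne (by omega)]
        exact h1 j h
      · subst h
        rw [Function.update_self, Function.update_self, Function.update_self,
          Function.update_of_ne (by omega), Function.update_of_ne (by omega), hA, hB]
        refine ⟨rfl, min_le_left _ _, le_max_left _ _, min_le_right _ _, le_max_right _ _, ?_⟩
        rcases le_total (a + D j) b with h | h
        · rw [max_eq_right h, min_eq_left h, abs_of_nonpos (by omega)]; ring
        · rw [max_eq_left h, min_eq_right h, abs_of_nonneg (by omega)]; ring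
    · intro j hj
      rcases Nat.le_succ_iff.1 hj with h | h
      · rw [Function.update_of_ne (by omega), Function.update_of_ne (by omega)]
        exact h2 j h
      · rw [h, Function.update_self, Function.update_self, abs_le, abs_le]
        omega
    · intro j hj
      rcases Nat.lt_succ_iff_lt_or_eq.1 hj with h | h
      · rw [Function.update_of_ne (by omega)]
        exact h3 j h
      · rw [h, Function.update_self, abs_le]
        omega

theorem As_succ (al π : ℕ → ℝ) (k : ℕ) : As al π (k + 1) = As al π k + π k * al k := by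
  unfold As; rw [sum_range_succ]

/-- the lengths in the configuration of a partition -/
theorem lengths {B : ℝ} {al π : ℕ → ℝ} (hal : ∀ j, 0 ≤ al j) (hπ : Sg π) {m : ℕ}
    (hB : ∑ j ∈ range (m + 1), al j ≤ B) (hA : As al π (m + 1) = 0) {s : ℝ} (hs : |s| = 1)
    {l : ℕ → ℝ} (htop : l (m + 1) = π m * Ms B π (m + 1))
    (hl : ∀ j < m + 1, l j = |Dp B al s j - l (j + 1)|) :
    l 0 = 0 ∧ ∀ j < m + 1, l (j + 1) = π j * (Ms B π (j + 1) + 2 * s * As al π (j + 1)) := by
  have hB0 : 0 ≤ B := le_trans (sum_nonneg fun j _ => hal j) hB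
  have hAk : ∀ k ≤ m + 1, |As al π k| ≤ B := by
    intro k hk
    unfold As
    refine (abs_sum_le_sum_abs _ _).trans ?_
    refine le_trans ?_ hB
    calc ∑ j ∈ range k, |π j * al j| = ∑ j ∈ range k, al j :=
          sum_congr rfl fun j _ => by rw [hπ.abs_mul, abs_of_nonneg (hal j)]
      _ ≤ ∑ j ∈ range (m + 1), al j :=
          sum_le_sum_of_subset_of_nonneg (range_subset_range.2 hk) fun j _ _ => hal j
  have key : ∀ i ≤ m, l (m - i + 1) =
      π (m - i) * (Ms B π (m - i + 1) + 2 * s * As al π (m - i + 1)) := by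
    intro i
    induction i with
    | zero =>
      intro _
      rw [Nat.sub_zero, htop, hA]
      ring
    | succ i ih =>
      intro hi
      have ih' := ih (by omega)
      have e : m - i = m - (i + 1) + 1 := by omega
      rw [e] at ih'
      set k := m - (i + 1) with hk
      have hkm : k + 1 < m + 1 := by omega
      rw [hl (k + 1) hkm, ih']
      have e2 : Dp B al s (k + 1) - π (k + 1) * (Ms B π (k + 1 + 1) +
          2 * s * As al π (k + 1 + 1)) =
          -(π (k + 1) * (Ms B π (k + 1) + 2 * s * As al π (k + 1))) := by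
        rw [Ms_succ, As_succ]
        unfold Dp
        have h := hπ.sq (k + 1)
        linear_combination (-(B * 2 ^ (k + 1 + 1)) - 2 * s * al (k + 1)) * h
      rw [e2, abs_neg, hπ.abs_mul, ← hπ.abs_mul k, abs_of_nonneg]
      have h3 := (Ms_bound hB0 hπ k).1
      have h4 : |π k * (2 * s * As al π (k + 1))| ≤ 2 * B := by
        rw [hπ.abs_mul, abs_mul, abs_mul, hs]
        have := hAk (k + 1) (by omega)
        norm_num
        linarith
      have h5 := (abs_le.1 h4).1
      rw [mul_add]
      linarith
  have hall : ∀ j < m + 1, l (j + 1) =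
      π j * (Ms B π (j + 1) + 2 * s * As al π (j + 1)) := by
    intro j hj
    have := key (m - j) (by omega)
    have e : m - (m - j) = j := by omega
    rwa [e] at this
  refine ⟨?_, hall⟩
  rw [hl 0 (by omega), hall 0 (by omega), hπ.1, Ms_succ, As_succ, Ms_zero, hπ.1]
  have : As al π 0 = 0 := by simp [As]
  rw [this]
  unfold Dp
  norm_num
  ring_nf

/-- the energy of the configuration of a partition -/
theorem energy {B : ℝ} {al π : ℕ → ℝ} (hal : ∀ j, 0 ≤ al j) (hπ : Sg π) {m : ℕ}
    (hB : ∑ j ∈ range (m + 1), al j ≤ B) (hA : As al π (m + 1) = 0)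
    {l l' : ℕ → ℝ} (htop : l (m + 1) = π m * Ms B π (m + 1))
    (htop' : l' (m + 1) = π m * Ms B π (m + 1))
    (hl : ∀ j < m + 1, l j = |Dp B al 1 j - l (j + 1)|)
    (hl' : ∀ j < m + 1, l' j = |Dp B al (-1) j - l' (j + 1)|) (K : ℝ) :
    En B K l 0 (m + 1) + En B K l' 0 (m + 1) - (π m * Ms B π (m + 1)) ^ 2 = Sq B (m + 1) := by
  obtain ⟨h0, h1⟩ := lengths hal hπ hB hA (s := 1) (by norm_num) htop hl
  obtain ⟨h0', h1'⟩ := lengths hal hπ hB hA (s := -1) (by norm_num) htop' hl'
  have hMM : (π m * Ms B π (m + 1)) ^ 2 = Ms B π (m + 1) ^ 2 := by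
    have := hπ.sq m
    calc (π m * Ms B π (m + 1)) ^ 2 = (π m * π m) * Ms B π (m + 1) ^ 2 := by ring
      _ = _ := by rw [this, one_mul]
  have key : ∀ k ≤ m + 1, En B K l 0 k + En B K l' 0 k =
      ∑ j ∈ range k, (B * 2 ^ (j + 1)) * (2 * (π j * Ms B π (j + 1))) := by
    intro k
    induction k with
    | zero => intro _; rw [En_zero, En_zero, h0, h0']; simp
    | succ k ih =>
      intro hk
      rw [En_succ, En_succ, sum_range_succ, ← ih (by omega), h1 k (by omega), h1' k (by omega),
        be_succ]
      simp only [Pi.zero_apply]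
      ring
  rw [key (m + 1) le_rfl, hMM]
  have hS := Sq_id B hπ (m + 1)
  have e : ∑ j ∈ range (m + 1), (B * 2 ^ (j + 1)) * (2 * (π j * Ms B π (j + 1))) =
      2 * ∑ j ∈ range (m + 1), π j * (B * 2 ^ (j + 1)) * Ms B π j + 2 * Sq B (m + 1) := by
    unfold Sq
    rw [mul_sum, mul_sum, ← sum_add_distrib]
    refine sum_congr rfl fun j _ => ?_
    rw [Ms_succ]
    have h := hπ.sq j
    linear_combination (2 * (B * 2 ^ (j + 1)) ^ 2) * h
  rw [e, hS]
  ring

end Pool.Agent.W2helper57.TUH
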