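import Pool.Agent.W2helper57.TUH.Graph
import Pool.Agent.W2helper57.TUH.Config

set_option autoImplicit false

/-!
# The graph of a list of numbers
-/

namespace Pool.Agent.NPC.W2h57TUH

open Pool.Agent.NPC Pool.Agent.W2helper57.TUH Pool.Agent.NPC.W2h57TU

def pB (al : List ℕ) : ℕ := 1 + al.sum
def w2 (al : List ℕ) (k : ℕ) : ℕ := 2 ^ min k al.length
def pG (al : List ℕ) : ℕ := pB al * 2 ^ al.length
def pK (al : List ℕ) : ℕ := pG al ^ 2
def pH (al : List ℕ) : ℕ := 1000 * pG al ^ 5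
def pD (al : List ℕ) (s : ℤ) (k : ℕ) : ℤ := (pB al : ℤ) * (2 * w2 al k) + s * (2 * al.getD k 0)
def pbe (al : List ℕ) (k : ℕ) : ℤ := if k = 0 then 2 * (pB al : ℤ) else (pB al : ℤ) * w2 al k

/-- the nodes `a` (`τ = 0`), `b` (`τ = 1`), `c` (`τ = 2`) of level `k` of the chain `ν` -/
def nd (ν k τ : ℕ) : ℕ := 4 + 3 * (2 * k + ν) + τ

/-- the weights which produce the linear costs of the lengths -/
def lev1 (al : List ℕ) (ν k : ℕ) : List Ed :=
  [(4 * pH al * pbe al k, nd ν k 1, 0), (4 * pH al * pbe al k, 1, nd ν k 0)]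

/-- the stiff spring with offset -/
def lev2 (al : List ℕ) (ν : ℕ) (s : ℤ) (k : ℕ) : List Ed :=
  [(8 * pH al * pK al * pD al s k, nd ν (k + 1) 0, 0),
   (8 * pH al * pK al * pD al s k, 1, nd ν k 2),
   (8 * (pH al : ℤ) ^ 2 * pK al, nd ν k 2, nd ν (k + 1) 0)]

/-- the threshold -/
def pth (al : List ℕ) : ℤ :=
  ((List.range al.length).map fun k => ((pB al : ℤ) * (2 * w2 al k)) ^ 2).sum + 1

def pqt (al : List ℕ) (s : ℤ) (k : ℕ) : ℤ :=
  4 * pH al * pK al * pD al s k - 2 * pK al * pD al s k ^ 2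

/-- the weight of the edge between the ends -/
def pq (al : List ℕ) : ℤ :=
  2 * pth al + 8 * pH al * pG al +
    ((List.range al.length).map fun k => pqt al 1 k + pqt al (-1) k).sum -
    16 * (pG al : ℤ) ^ 2 + 16 * (pH al : ℤ) ^ 2

def lev3 (al : List ℕ) : List Ed :=
  [(16 * pH al * ((pH al : ℤ) - pG al), 2, 0), (16 * pH al * ((pH al : ℤ) + pG al), 1, 2),
   (16 * pH al * ((pH al : ℤ) + pG al), 3, 0), (16 * pH al * ((pH al : ℤ) - pG al), 1, 3),
   (-8 * (pH al : ℤ) ^ 2, nd 0 al.length 1, nd 0 al.length 0), (-pq al, 1, 0)]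

/-- the edges -/
def eds (al : List ℕ) : List Ed :=
  ((List.range (al.length + 1)).flatMap fun k => lev1 al 0 k ++ lev1 al 1 k) ++
    (((List.range al.length).flatMap fun k => lev2 al 0 1 k ++ lev2 al 1 (-1) k) ++ lev3 al)

def ord1 (ν k : ℕ) : List (ℕ × ℕ) :=
  [(nd ν k 0, nd ν k 2), (nd ν k 2, nd ν k 1), (nd ν k 0, nd ν (k + 1) 1),
   (nd ν (k + 1) 1, nd ν k 1)]

def ord2 (n : ℕ) : List (ℕ × ℕ) :=
  [(nd 0 n 0, nd 1 n 0), (nd 1 n 0, nd 0 n 0), (nd 0 n 1, nd 1 n 1), (nd 1 n 1, nd 0 n 1),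
   (nd 0 n 0, nd 0 n 1), (nd 0 n 1, 2), (3, nd 0 n 0), (0, 1)]

/-- the order constraints -/
def ords (al : List ℕ) : List (ℕ × ℕ) :=
  ((List.range al.length).flatMap fun k => ord1 0 k ++ ord1 1 k) ++ ord2 al.length

/-- the number of nodes -/
def nn (al : List ℕ) : ℕ := 4 + 6 * (al.length + 1)

/-- the instance -/
def red (al : List ℕ) : Inst := gi (nn al) (eds al) (ords al)

/-! ### Polynomial time -/

section

variable {α : Type} [TEnc α]

theorem poly_nd {ν k τ : α → ℕ} (hν : Poly ν) (hk : Poly k) (hτ : Poly τ) :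
    Poly (fun a => nd (ν a) (k a) (τ a)) :=
  Poly.add (Poly.add (Poly.const 4) (Poly.mul (Poly.const 3) (Poly.add (Poly.mul (Poly.const 2) hk)
    hν))) hτ

theorem poly_pB {l : α → List ℕ} (hl : Poly l) : Poly (fun a => pB (l a)) :=
  Poly.add (Poly.const 1) (Poly.sum hl)

theorem poly_w2 {l : α → List ℕ} {k : α → ℕ} (hl : Poly l) (hk : Poly k) :
    Poly (fun a => w2 (l a) (k a)) := by
  refine Poly.npow (Poly.const 2) ?_
  exact UPoly.of_le (n := fun a => (l a).length) (Poly.min hk (UPoly.length hl).toPoly)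
    (UPoly.length hl) (fun a => min_le_right _ _)

theorem poly_pG {l : α → List ℕ} (hl : Poly l) : Poly (fun a => pG (l a)) :=
  Poly.mul (poly_pB hl) (Poly.npow (Poly.const 2) (UPoly.length hl))

theorem poly_pK {l : α → List ℕ} (hl : Poly l) : Poly (fun a => pK (l a)) :=
  Poly.npow (poly_pG hl) (UPoly.const 2)

theorem poly_pH {l : α → List ℕ} (hl : Poly l) : Poly (fun a => pH (l a)) :=
  Poly.mul (Poly.const 1000) (Poly.npow (poly_pG hl) (UPoly.const 5))

theorem poly_pD {l : α → List ℕ} {s : α → ℤ} {k : α → ℕ} (hl : Poly l) (hs : Poly s)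
    (hk : Poly k) : Poly (fun a => pD (l a) (s a) (k a)) :=
  Poly.iadd (Poly.imul (Poly.natCast (poly_pB hl)) (Poly.imul (Poly.const 2)
    (Poly.natCast (poly_w2 hl hk)))) (Poly.imul hs (Poly.imul (Poly.const 2)
      (Poly.natCast (Poly.getD (d := fun _ => 0) hl hk (Poly.const 0)))))

theorem poly_pbe {l : α → List ℕ} {k : α → ℕ} (hl : Poly l) (hk : Poly k) :
    Poly (fun a => pbe (l a) (k a)) :=
  Poly.ite (Poly.decide_eq hk (Poly.const 0)) (Poly.imul (Poly.const 2)
    (Poly.natCast (poly_pB hl))) (Poly.imul (Poly.natCast (poly_pB hl))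
      (Poly.natCast (poly_w2 hl hk)))

theorem poly_lev1 {l : α → List ℕ} {ν k : α → ℕ} (hl : Poly l) (hν : Poly ν) (hk : Poly k) :
    Poly (fun a => lev1 (l a) (ν a) (k a)) := by
  have h : Poly (fun a => 4 * (pH (l a) : ℤ) * pbe (l a) (k a)) :=
    Poly.imul (Poly.imul (Poly.const 4) (Poly.natCast (poly_pH hl))) (poly_pbe hl hk)
  exact Poly.cons (Poly.pair h (Poly.pair (poly_nd hν hk (Poly.const 1)) (Poly.const 0)))
    (Poly.cons (Poly.pair h (Poly.pair (Poly.const 1) (poly_nd hν hk (Poly.const 0))))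
      (Poly.const []))

theorem poly_lev2 {l : α → List ℕ} {ν k : α → ℕ} {s : α → ℤ} (hl : Poly l) (hν : Poly ν)
    (hs : Poly s) (hk : Poly k) : Poly (fun a => lev2 (l a) (ν a) (s a) (k a)) := by
  have h : Poly (fun a => 8 * (pH (l a) : ℤ) * (pK (l a) : ℤ) * pD (l a) (s a) (k a)) :=
    Poly.imul (Poly.imul (Poly.imul (Poly.const 8) (Poly.natCast (poly_pH hl)))
      (Poly.natCast (poly_pK hl))) (poly_pD hl hs hk)
  have h' : Poly (fun a => 8 * (pH (l a) : ℤ) ^ 2 * (pK (l a) : ℤ)) :=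
    Poly.imul (Poly.imul (Poly.const 8) (Poly.ipow (Poly.natCast (poly_pH hl)) (UPoly.const 2)))
      (Poly.natCast (poly_pK hl))
  have hk1 : Poly (fun a => k a + 1) := Poly.succ hk
  exact Poly.cons (Poly.pair h (Poly.pair (poly_nd hν hk1 (Poly.const 0)) (Poly.const 0)))
    (Poly.cons (Poly.pair h (Poly.pair (Poly.const 1) (poly_nd hν hk (Poly.const 2))))
      (Poly.cons (Poly.pair h' (Poly.pair (poly_nd hν hk (Poly.const 2))
        (poly_nd hν hk1 (Poly.const 0)))) (Poly.const [])))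

theorem poly_pth {l : α → List ℕ} (hl : Poly l) : Poly (fun a => pth (l a)) := by
  have hl1 : Poly (fun z : α × ℕ => l z.1) := hl.comp (Poly.fst Poly.id)
  exact Poly.iadd (Poly.isum (Poly.map (UPoly.length hl).range (Poly.ipow (Poly.imul
    (Poly.natCast (poly_pB hl1)) (Poly.imul (Poly.const 2) (Poly.natCast
      (poly_w2 hl1 (Poly.snd Poly.id))))) (UPoly.const 2)))) (Poly.const 1)

theorem poly_pqt {l : α → List ℕ} {s : α → ℤ} {k : α → ℕ} (hl : Poly l) (hs : Poly s)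
    (hk : Poly k) : Poly (fun a => pqt (l a) (s a) (k a)) :=
  Poly.isub (Poly.imul (Poly.imul (Poly.imul (Poly.const 4) (Poly.natCast (poly_pH hl)))
    (Poly.natCast (poly_pK hl))) (poly_pD hl hs hk)) (Poly.imul (Poly.imul (Poly.const 2)
      (Poly.natCast (poly_pK hl))) (Poly.ipow (poly_pD hl hs hk) (UPoly.const 2)))

theorem poly_pq {l : α → List ℕ} (hl : Poly l) : Poly (fun a => pq (l a)) := by
  have hl1 : Poly (fun z : α × ℕ => l z.1) := hl.comp (Poly.fst Poly.id)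
  have hG := Poly.natCast (poly_pG hl)
  have hH := Poly.natCast (poly_pH hl)
  refine Poly.iadd (Poly.isub (Poly.iadd (Poly.iadd (Poly.imul (Poly.const 2) (poly_pth hl))
    (Poly.imul (Poly.imul (Poly.const 8) hH) hG)) (Poly.isum (Poly.map (UPoly.length hl).range
      (Poly.iadd (poly_pqt hl1 (Poly.const 1) (Poly.snd Poly.id))
        (poly_pqt hl1 (Poly.const (-1)) (Poly.snd Poly.id)))))) ?_) ?_
  · exact Poly.imul (Poly.const 16) (Poly.ipow hG (UPoly.const 2))
  · exact Poly.imul (Poly.const 16) (Poly.ipow hH (UPoly.const 2))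

theorem poly_lev3 {l : α → List ℕ} (hl : Poly l) : Poly (fun a => lev3 (l a)) := by
  have hG := Poly.natCast (poly_pG hl)
  have hH := Poly.natCast (poly_pH hl)
  have hn : Poly (fun a => (l a).length) := (UPoly.length hl).toPoly
  have h1 : Poly (fun a => 16 * (pH (l a) : ℤ) * ((pH (l a) : ℤ) - pG (l a))) :=
    Poly.imul (Poly.imul (Poly.const 16) hH) (Poly.isub hH hG)
  have h2 : Poly (fun a => 16 * (pH (l a) : ℤ) * ((pH (l a) : ℤ) + pG (l a))) :=
    Poly.imul (Poly.imul (Poly.const 16) hH) (Poly.iadd hH hG)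
  exact Poly.cons (Poly.pair h1 (Poly.const (2, 0))) (Poly.cons (Poly.pair h2 (Poly.const (1, 2)))
    (Poly.cons (Poly.pair h2 (Poly.const (3, 0))) (Poly.cons (Poly.pair h1 (Poly.const (1, 3)))
      (Poly.cons (Poly.pair (Poly.imul (Poly.const (-8)) (Poly.ipow hH (UPoly.const 2)))
        (Poly.pair (poly_nd (Poly.const 0) hn (Poly.const 1))
          (poly_nd (Poly.const 0) hn (Poly.const 0))))
        (Poly.cons (Poly.pair (Poly.ineg (poly_pq hl)) (Poly.const (1, 0))) (Poly.const []))))))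

theorem poly_eds {l : α → List ℕ} (hl : Poly l) : Poly (fun a => eds (l a)) := by
  have hl1 : Poly (fun z : α × ℕ => l z.1) := hl.comp (Poly.fst Poly.id)
  have hk : Poly (fun z : α × ℕ => z.2) := Poly.snd Poly.id
  exact Poly.append (Poly.flatMap (UPoly.add (UPoly.length hl) (UPoly.const 1)).range
    (Poly.append (poly_lev1 hl1 (Poly.const 0) hk) (poly_lev1 hl1 (Poly.const 1) hk)))
    (Poly.append (Poly.flatMap (UPoly.length hl).range (Poly.append
      (poly_lev2 hl1 (Poly.const 0) (Poly.const 1) hk)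
      (poly_lev2 hl1 (Poly.const 1) (Poly.const (-1)) hk))) (poly_lev3 hl))

theorem poly_ord1 {ν k : α → ℕ} (hν : Poly ν) (hk : Poly k) :
    Poly (fun a => ord1 (ν a) (k a)) := by
  have hk1 : Poly (fun a => k a + 1) := Poly.succ hk
  exact Poly.cons (Poly.pair (poly_nd hν hk (Poly.const 0)) (poly_nd hν hk (Poly.const 2)))
    (Poly.cons (Poly.pair (poly_nd hν hk (Poly.const 2)) (poly_nd hν hk (Poly.const 1)))
      (Poly.cons (Poly.pair (poly_nd hν hk (Poly.const 0)) (poly_nd hν hk1 (Poly.const 1)))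
        (Poly.cons (Poly.pair (poly_nd hν hk1 (Poly.const 1)) (poly_nd hν hk (Poly.const 1)))
          (Poly.const []))))

theorem poly_ord2 {n : α → ℕ} (hn : Poly n) : Poly (fun a => ord2 (n a)) := by
  have h : ∀ ν τ : ℕ, Poly (fun a => nd ν (n a) τ) := fun ν τ =>
    poly_nd (Poly.const ν) hn (Poly.const τ)
  exact Poly.cons (Poly.pair (h 0 0) (h 1 0)) (Poly.cons (Poly.pair (h 1 0) (h 0 0))
    (Poly.cons (Poly.pair (h 0 1) (h 1 1)) (Poly.cons (Poly.pair (h 1 1) (h 0 1))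
      (Poly.cons (Poly.pair (h 0 0) (h 0 1)) (Poly.cons (Poly.pair (h 0 1) (Poly.const 2))
        (Poly.cons (Poly.pair (Poly.const 3) (h 0 0)) (Poly.const [(0, 1)])))))))

theorem poly_ords {l : α → List ℕ} (hl : Poly l) : Poly (fun a => ords (l a)) :=
  Poly.append (Poly.flatMap (UPoly.length hl).range (Poly.append
    (poly_ord1 (Poly.const 0) (Poly.snd Poly.id)) (poly_ord1 (Poly.const 1) (Poly.snd Poly.id))))
    (poly_ord2 (UPoly.length hl).toPoly)

theorem poly_rowE {L N i u v : α → ℕ} {σ : α → ℤ} (hL : UPoly L) (hN : Poly N) (hi : Poly i)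
    (hσ : Poly σ) (hu : Poly u) (hv : Poly v) :
    Poly (fun a => rowE (L a) (N a) (i a) (σ a) (u a) (v a)) := by
  have f1 : Poly (fun z : α × ℕ => z.1) := Poly.fst Poly.id
  have hk : Poly (fun z : α × ℕ => z.2) := Poly.snd Poly.id
  exact Poly.map hL.range (Poly.ite (Poly.decide_eq hk ((Poly.add hN hi).comp f1)) (hσ.comp f1)
    (Poly.ite (Poly.decide_eq hk (hu.comp f1)) (Poly.ineg (hσ.comp f1))
      (Poly.ite (Poly.decide_eq hk (hv.comp f1)) (hσ.comp f1) (Poly.const 0))))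

theorem poly_rowO {L u v : α → ℕ} (hL : UPoly L) (hu : Poly u) (hv : Poly v) :
    Poly (fun a => rowO (L a) (u a) (v a)) := by
  have f1 : Poly (fun z : α × ℕ => z.1) := Poly.fst Poly.id
  have hk : Poly (fun z : α × ℕ => z.2) := Poly.snd Poly.id
  exact Poly.map hL.range (Poly.ite (Poly.decide_eq hk (hu.comp f1)) (Poly.const 1)
    (Poly.ite (Poly.decide_eq hk (hv.comp f1)) (Poly.const (-1)) (Poly.const 0)))

theorem poly_gi {N : α → ℕ} {E : α → List Ed} {O : α → List (ℕ × ℕ)} (hN : UPoly N)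
    (hE : Poly E) (hO : Poly O) : Poly (fun a => gi (N a) (E a) (O a)) := by
  have hL : UPoly (fun a => N a + (E a).length) := UPoly.add hN (UPoly.length hE)
  refine Poly.pair (Poly.append (Poly.map hN.range (Poly.const _)) (Poly.map hE
    (Poly.pair (Poly.fst (Poly.snd Poly.id)) (Poly.const 0)))) (Poly.append (Poly.flatMap
      (Poly.zipIdx hE) ?_) (Poly.map hO (Poly.pair (poly_rowO (hL.comp (Poly.fst Poly.id))
        (Poly.fst (Poly.snd Poly.id)) (Poly.snd (Poly.snd Poly.id))) (Poly.const 0))))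
  have f1 : Poly (fun z : α × Ed × ℕ => z.1) := Poly.fst Poly.id
  have he : Poly (fun z : α × Ed × ℕ => z.2.1) := Poly.fst (Poly.snd Poly.id)
  have hi : Poly (fun z : α × Ed × ℕ => z.2.2) := Poly.snd (Poly.snd Poly.id)
  exact Poly.cons (Poly.pair (poly_rowE (hL.comp f1) (hN.toPoly.comp f1) hi (Poly.const 1)
    (Poly.fst (Poly.snd he)) (Poly.snd (Poly.snd he))) (Poly.const 0))
    (Poly.cons (Poly.pair (poly_rowE (hL.comp f1) (hN.toPoly.comp f1) hi (Poly.const (-1))
      (Poly.fst (Poly.snd he)) (Poly.snd (Poly.snd he))) (Poly.const 0)) (Poly.const []))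

theorem poly_red : Poly red :=
  poly_gi (UPoly.add (UPoly.const 4) (UPoly.mul (UPoly.const 6) (UPoly.add
    (UPoly.length Poly.id) (UPoly.const 1)))) (poly_eds Poly.id) (poly_ords Poly.id)

end

end Pool.Agent.NPC.W2h57TUH
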