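import Mathlib

set_option autoImplicit false

/-!
# The folding chain: lower bounds

A chain of lengths `l 0, …, l m` with `|D j - l (j + 1) + η j| ≤ l j`, with a linear cost for the
lengths and a quadratic cost for the errors `η j`.
-/

namespace Pool.Agent.W2helper57.TUH

open Finset

/-- coefficients of the lengths -/
def be (B : ℝ) (k : ℕ) : ℝ := if k = 0 then 2 * B else B * 2 ^ k

theorem be_zero (B : ℝ) : be B 0 = 2 * B := rfl

theorem be_succ (B : ℝ) (k : ℕ) : be B (k + 1) = B * 2 ^ (k + 1) := by simp [be]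

/-- signed sums -/
def Ms (B : ℝ) (π : ℕ → ℝ) (k : ℕ) : ℝ := ∑ j ∈ range k, π j * (B * 2 ^ (j + 1))

theorem Ms_zero (B : ℝ) (π : ℕ → ℝ) : Ms B π 0 = 0 := by simp [Ms]

theorem Ms_succ (B : ℝ) (π : ℕ → ℝ) (k : ℕ) :
    Ms B π (k + 1) = Ms B π k + π k * (B * 2 ^ (k + 1)) := by
  unfold Ms; rw [sum_range_succ]

/-- sign patterns -/
def Sg (π : ℕ → ℝ) : Prop := π 0 = 1 ∧ ∀ k, π k = 1 ∨ π k = -1

theorem Sg.sq {π : ℕ → ℝ} (h : Sg π) (k : ℕ) : π k * π k = 1 := by
  rcases h.2 k with h | h <;> rw [h] <;> norm_num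

theorem Sg.abs_mul {π : ℕ → ℝ} (h : Sg π) (k : ℕ) (x : ℝ) : |π k * x| = |x| := by
  rcases h.2 k with h | h <;> rw [h] <;> simp

theorem Ms_bound {B : ℝ} (hB : 0 ≤ B) {π : ℕ → ℝ} (h : Sg π) (k : ℕ) :
    2 * B ≤ π k * Ms B π (k + 1) ∧ π k * Ms B π (k + 1) ≤ B * 2 ^ (k + 2) - 2 * B := by
  induction k with
  | zero =>
    rw [Ms_succ, Ms_zero, h.1]
    norm_num
    constructor <;> linarith
  | succ k ih =>
    have e : π (k + 1) * Ms B π (k + 1 + 1) = π (k + 1) * Ms B π (k + 1) + B * 2 ^ (k + 2) := by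
      rw [Ms_succ B π (k + 1)]
      have := h.sq (k + 1)
      calc π (k + 1) * (Ms B π (k + 1) + π (k + 1) * (B * 2 ^ (k + 1 + 1)))
          = π (k + 1) * Ms B π (k + 1) + (π (k + 1) * π (k + 1)) * (B * 2 ^ (k + 2)) := by ring
        _ = _ := by rw [this, one_mul]
    have h1 : |π (k + 1) * Ms B π (k + 1)| = |π k * Ms B π (k + 1)| := by
      rw [h.abs_mul, h.abs_mul]
    have h2 : |π k * Ms B π (k + 1)| = π k * Ms B π (k + 1) := abs_of_nonneg (by linarith [ih.1])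
    rw [h2] at h1
    have h3 := abs_le.1 (le_of_eq h1)
    have e3 : (2 : ℝ) ^ (k + 1 + 2) = 2 * 2 ^ (k + 2) := by ring
    rw [e, e3]
    constructor <;> linarith [ih.1, ih.2, h3.1, h3.2]

/-- the energy of a chain of length `m` -/
noncomputable def En (B K : ℝ) (l η : ℕ → ℝ) (m : ℕ) : ℝ :=
  ∑ j ∈ range (m + 1), be B j * l j + K * ∑ j ∈ range m, η j ^ 2

theorem En_zero (B K : ℝ) (l η : ℕ → ℝ) : En B K l η 0 = 2 * B * l 0 := by
  simp [En, be_zero]

theorem En_succ (B K : ℝ) (l η : ℕ → ℝ) (m : ℕ) :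
    En B K l η (m + 1) = En B K l η m + be B (m + 1) * l (m + 1) + K * η m ^ 2 := by
  unfold En
  rw [sum_range_succ _ (m + 1), sum_range_succ (fun j => η j ^ 2)]
  ring

/-- the sum of the constants -/
def Cs (B κ : ℝ) (π D : ℕ → ℝ) (m : ℕ) : ℝ := ∑ j ∈ range m, π j * D j * (Ms B π j - 2 * B * κ)

theorem Cs_succ (B κ : ℝ) (π D : ℕ → ℝ) (m : ℕ) :
    Cs B κ π D (m + 1) = Cs B κ π D m + π m * D m * (Ms B π m - 2 * B * κ) := by
  unfold Cs; rw [sum_range_succ]

/-- completing the square -/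
theorem sq_bound {K t s η : ℝ} (hK : 0 < K) (hs : |s| ≤ t) :
    -(t ^ 2 / (4 * K)) ≤ s * η + K * η ^ 2 := by
  have h1 : s ^ 2 ≤ t ^ 2 := by
    rw [← sq_abs s]
    exact pow_le_pow_left₀ (abs_nonneg _) hs 2
  have h2 : 0 ≤ (2 * K * η + s) ^ 2 := sq_nonneg _
  rw [neg_le, div_eq_mul_inv]
  have h4 : (0 : ℝ) < 4 * K := by linarith
  rw [← div_eq_mul_inv, le_div_iff₀ h4]
  nlinarith

/-- the linear lower bound for the energy of a chain -/
theorem chain {B K κ : ℝ} (hB : 0 ≤ B) (hK : 0 < K) (hκ : |κ| ≤ 1) {π : ℕ → ℝ} (hπ : Sg π)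
    {D l η : ℕ → ℝ} {m : ℕ} (h : ∀ j < m + 1, |D j - l (j + 1) + η j| ≤ l j) :
    π m * (Ms B π (m + 1) - 2 * B * κ) * l (m + 1) - Cs B κ π D (m + 1) -
      B ^ 2 * 4 ^ (m + 1) / (3 * K) ≤ En B K l η (m + 1) := by
  obtain ⟨hκ1, hκ2⟩ := abs_le.1 hκ
  induction m with
  | zero =>
    rw [En_succ, En_zero, Ms_succ, Ms_zero, hπ.1, Cs_succ, be_succ]
    have h0 := h 0 (by omega)
    have e0 : Cs B κ π D 0 = 0 := by simp [Cs]
    rw [e0, Ms_zero, hπ.1]
    have h1 := sq_bound (K := K) (t := 2 * B) (s := 2 * B * κ) (η := η 0) hK (by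
      rw [abs_mul, abs_of_nonneg (by linarith : 0 ≤ 2 * B)]
      nlinarith)
    have h2 : κ * (D 0 - l (0 + 1) + η 0) ≤ l 0 := by
      have : κ * (D 0 - l (0 + 1) + η 0) ≤ |κ| * |D 0 - l (0 + 1) + η 0| := by
        rw [← abs_mul]; exact le_abs_self _
      have h3 : |κ| * |D 0 - l (0 + 1) + η 0| ≤ 1 * |D 0 - l (0 + 1) + η 0| :=
        mul_le_mul_of_nonneg_right hκ (abs_nonneg _)
      linarith
    have h3 : 2 * B * (κ * (D 0 - l (0 + 1) + η 0)) ≤ 2 * B * l 0 :=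
      mul_le_mul_of_nonneg_left h2 (by linarith)
    have h4 : (2 * B) ^ 2 / (4 * K) ≤ B ^ 2 * 4 ^ (0 + 1) / (3 * K) := by
      rw [div_le_div_iff₀ (by linarith) (by linarith)]
      have : 0 ≤ B ^ 2 * K := by positivity
      norm_num
      nlinarith
    simp only [zero_add, pow_one] at *
    nlinarith
  | succ m ih =>
    have ih' := ih fun j hj => h j (by omega)
    have h0 := h (m + 1) (by omega)
    rw [En_succ _ _ _ _ (m + 1), Cs_succ _ _ _ _ (m + 1), be_succ]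
    obtain ⟨b1, b2⟩ := Ms_bound hB hπ m
    set N := Ms B π (m + 1) with hN
    set t := π m * (N - 2 * B * κ) with ht
    have hBk : |2 * B * κ| ≤ 2 * B := by
      rw [abs_mul, abs_of_nonneg (by linarith : 0 ≤ 2 * B)]
      nlinarith
    have hπk : |π m * (2 * B * κ)| ≤ 2 * B := by rw [hπ.abs_mul]; exact hBk
    obtain ⟨c1, c2⟩ := abs_le.1 hπk
    have ht0 : 0 ≤ t := by
      have : t = π m * N - π m * (2 * B * κ) := by rw [ht]; ring
      rw [this]; linarith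
    have ht1 : t ≤ B * 2 ^ (m + 2) := by
      have : t = π m * N - π m * (2 * B * κ) := by rw [ht]; ring
      rw [this]; linarith
    have habs : |N - 2 * B * κ| = t := by
      rw [← hπ.abs_mul m, ← ht, abs_of_nonneg ht0]
    have hs : |-(π (m + 1) * (N - 2 * B * κ))| = t := by
      rw [abs_neg, hπ.abs_mul, habs]
    have k1 : -(π (m + 1) * (N - 2 * B * κ)) * (D (m + 1) - l (m + 1 + 1) + η (m + 1)) ≤
        t * l (m + 1) := by
      calc -(π (m + 1) * (N - 2 * B * κ)) * (D (m + 1) - l (m + 1 + 1) + η (m + 1))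
          ≤ |-(π (m + 1) * (N - 2 * B * κ)) * (D (m + 1) - l (m + 1 + 1) + η (m + 1))| :=
            le_abs_self _
        _ = t * |D (m + 1) - l (m + 1 + 1) + η (m + 1)| := by rw [abs_mul, hs]
        _ ≤ t * l (m + 1) := mul_le_mul_of_nonneg_left h0 ht0
    have k2 := sq_bound (K := K) (t := t) (s := -(π (m + 1) * (N - 2 * B * κ)))
      (η := η (m + 1)) hK hs.le
    have k3 : t ^ 2 / (4 * K) + B ^ 2 * 4 ^ (m + 1) / (3 * K) ≤
        B ^ 2 * 4 ^ (m + 1 + 1) / (3 * K) := by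
      have e : B ^ 2 * 4 ^ (m + 1 + 1) / (3 * K) - B ^ 2 * 4 ^ (m + 1) / (3 * K) =
          (B * 2 ^ (m + 2)) ^ 2 / (4 * K) := by
        have e4 : (4 : ℝ) ^ (m + 1) = 4 * (2 ^ m) ^ 2 := by
          rw [pow_succ, show (4 : ℝ) = 2 ^ 2 by norm_num, ← pow_mul, ← pow_mul]
          ring
        rw [pow_succ 4 (m + 1), e4]
        field_simp
        ring
      have e2 : t ^ 2 / (4 * K) ≤ (B * 2 ^ (m + 2)) ^ 2 / (4 * K) :=
        div_le_div_of_nonneg_right (pow_le_pow_left₀ ht0 ht1 2) (by linarith)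
      linarith
    have k4 : π (m + 1) * (Ms B π (m + 1 + 1) - 2 * B * κ) =
        π (m + 1) * (N - 2 * B * κ) + B * 2 ^ (m + 1 + 1) := by
      rw [Ms_succ B π (m + 1), ← hN]
      have := hπ.sq (m + 1)
      calc π (m + 1) * (N + π (m + 1) * (B * 2 ^ (m + 1 + 1)) - 2 * B * κ)
          = π (m + 1) * (N - 2 * B * κ) + (π (m + 1) * π (m + 1)) * (B * 2 ^ (m + 1 + 1)) := by
            ring
        _ = _ := by rw [this, one_mul]
    rw [k4]
    have k5 : π (m + 1) * D (m + 1) * (N - 2 * B * κ) =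
        (π (m + 1) * (N - 2 * B * κ)) * D (m + 1) := by ring
    rw [k5]
    set w := π (m + 1) * (N - 2 * B * κ) with hw
    nlinarith

/-- every length is near the value of some sign pattern -/
theorem exists_pat {B : ℝ} (hB : 0 ≤ B) (k : ℕ) : ∀ x : ℝ, 0 ≤ x → x ≤ B * 2 ^ (k + 2) →
    ∃ π, Sg π ∧ |π k * Ms B π (k + 1) - x| ≤ 2 * B := by
  induction k with
  | zero =>
    intro x h0 h1
    refine ⟨fun _ => 1, ⟨rfl, fun _ => Or.inl rfl⟩, ?_⟩
    rw [Ms_succ, Ms_zero]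
    norm_num at h1 ⊢
    rw [abs_le]
    constructor <;> linarith
  | succ k ih =>
    intro x h0 h1
    have h2 : (2 : ℝ) ^ (k + 1 + 2) = 2 * 2 ^ (k + 2) := by ring
    obtain ⟨e, he, hμ⟩ : ∃ e : ℝ, (e = 1 ∨ e = -1) ∧
        |B * 2 ^ (k + 2) - x| = e * (B * 2 ^ (k + 2) - x) := by
      rcases le_total 0 (B * 2 ^ (k + 2) - x) with h | h
      · exact ⟨1, Or.inl rfl, by rw [abs_of_nonneg h]; ring⟩
      · exact ⟨-1, Or.inr rfl, by rw [abs_of_nonpos h]; ring⟩
    have hle : |B * 2 ^ (k + 2) - x| ≤ B * 2 ^ (k + 2) := by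
      rw [abs_le]
      rw [h2] at h1
      have : 0 ≤ B * 2 ^ (k + 2) := by positivity
      constructor <;> linarith
    obtain ⟨π, hπ, hπx⟩ := ih _ (abs_nonneg _) hle
    refine ⟨Function.update π (k + 1) (-(e * π k)), ⟨?_, ?_⟩, ?_⟩
    · rw [Function.update_of_ne (by omega)]; exact hπ.1
    · intro j
      by_cases hj : j = k + 1
      · rw [hj, Function.update_self]
        rcases he with h | h <;> rcases hπ.2 k with h' | h' <;> rw [h, h'] <;> norm_num
      · rw [Function.update_of_ne hj]; exact hπ.2 j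
    · have e1 : Ms B (Function.update π (k + 1) (-(e * π k))) (k + 1) = Ms B π (k + 1) := by
        unfold Ms
        refine sum_congr rfl fun j hj => ?_
        rw [mem_range] at hj
        rw [Function.update_of_ne (by omega)]
      rw [Ms_succ, e1, Function.update_self]
      have hee : e * e = 1 := by rcases he with h | h <;> rw [h] <;> norm_num
      have hpp := hπ.sq k
      have e2 : -(e * π k) * (Ms B π (k + 1) + -(e * π k) * (B * 2 ^ (k + 1 + 1))) - x =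
          e * (|B * 2 ^ (k + 2) - x| - π k * Ms B π (k + 1)) := by
        rw [hμ]
        calc -(e * π k) * (Ms B π (k + 1) + -(e * π k) * (B * 2 ^ (k + 1 + 1))) - x
            = -(e * π k) * Ms B π (k + 1) + (e * e) * (π k * π k) * (B * 2 ^ (k + 2)) - x := by
              ring
          _ = (e * e) * (B * 2 ^ (k + 2) - x) - e * (π k * Ms B π (k + 1)) := by
              rw [hee, hpp]; ring
          _ = _ := by ring
      rw [e2, abs_mul]
      have : |e| = 1 := by rcases he with h | h <;> rw [h] <;> norm_num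
      rw [this, one_mul, abs_sub_comm]
      exact hπx

/-- the sum of the squares -/
def Sq (B : ℝ) (m : ℕ) : ℝ := ∑ j ∈ range m, (B * 2 ^ (j + 1)) ^ 2

theorem Sq_id (B : ℝ) {π : ℕ → ℝ} (hπ : Sg π) (m : ℕ) :
    2 * ∑ j ∈ range m, π j * (B * 2 ^ (j + 1)) * Ms B π j = Ms B π m ^ 2 - Sq B m := by
  induction m with
  | zero => simp [Ms_zero, Sq]
  | succ m ih =>
    rw [sum_range_succ, mul_add, ih]
    unfold Sq
    rw [sum_range_succ, Ms_succ]
    have h := hπ.sq m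
    have : (π m * (B * 2 ^ (m + 1))) ^ 2 = (B * 2 ^ (m + 1)) ^ 2 := by
      calc (π m * (B * 2 ^ (m + 1))) ^ 2 = (π m * π m) * (B * 2 ^ (m + 1)) ^ 2 := by ring
        _ = _ := by rw [h, one_mul]
    nlinarith

/-- signed sums of the items -/
def As (al π : ℕ → ℝ) (m : ℕ) : ℝ := ∑ j ∈ range m, π j * al j

/-- the offsets of the two chains -/
def Dp (B : ℝ) (al : ℕ → ℝ) (s : ℝ) (j : ℕ) : ℝ := B * 2 ^ (j + 1) + s * (2 * al j)

theorem Cs_Dp (B κ : ℝ) (al π : ℕ → ℝ) (s : ℝ) (m : ℕ) :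
    Cs B κ π (Dp B al s) m = ∑ j ∈ range m, π j * (B * 2 ^ (j + 1)) * Ms B π j +
      2 * s * ∑ j ∈ range m, π j * al j * Ms B π j - 2 * B * κ * Ms B π m -
      4 * B * κ * s * As al π m := by
  induction m with
  | zero => simp [Cs, Ms_zero, As]
  | succ m ih =>
    rw [Cs_succ, ih, sum_range_succ, sum_range_succ, Ms_succ]
    unfold As Dp
    rw [sum_range_succ]
    ring

/-- lower bound for two chains with the same top, for one sign pattern -/
theorem two {B K : ℝ} (hB : 0 ≤ B) (hK : 0 < K) {π : ℕ → ℝ} (hπ : Sg π) {al : ℕ → ℝ}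
    {l l' η η' : ℕ → ℝ} {m : ℕ} {x : ℝ} (hx : l (m + 1) = x) (hx' : l' (m + 1) = x)
    (h : ∀ j < m + 1, |Dp B al 1 j - l (j + 1) + η j| ≤ l j)
    (h' : ∀ j < m + 1, |Dp B al (-1) j - l' (j + 1) + η' j| ≤ l' j)
    (hK2 : B ^ 2 * 4 ^ (m + 1) ≤ K) :
    Sq B (m + 1) - (π m * Ms B π (m + 1) - x) ^ 2 + 4 * B * |π m * Ms B π (m + 1) - x| - 1 ≤
      En B K l η (m + 1) + En B K l' η' (m + 1) - x ^ 2 ∧
    Sq B (m + 1) - (π m * Ms B π (m + 1) - x) ^ 2 + 8 * B * |As al π (m + 1)| - 1 ≤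
      En B K l η (m + 1) + En B K l' η' (m + 1) - x ^ 2 := by
  have hloss : B ^ 2 * 4 ^ (m + 1) / (3 * K) ≤ 1 / 3 := by
    rw [div_le_div_iff₀ (by linarith) (by norm_num)]
    linarith
  have hS := Sq_id B hπ (m + 1)
  have hMM : (π m * Ms B π (m + 1)) ^ 2 = Ms B π (m + 1) ^ 2 := by
    have := hπ.sq m
    calc (π m * Ms B π (m + 1)) ^ 2 = (π m * π m) * Ms B π (m + 1) ^ 2 := by ring
      _ = _ := by rw [this, one_mul]
  have key : ∀ κ κ' : ℝ, |κ| ≤ 1 → |κ'| ≤ 1 →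
      Sq B (m + 1) - (π m * Ms B π (m + 1) - x) ^ 2 +
        2 * B * (κ + κ') * (Ms B π (m + 1) - π m * x) +
        4 * B * (κ - κ') * As al π (m + 1) - 1 ≤
      En B K l η (m + 1) + En B K l' η' (m + 1) - x ^ 2 := by
    intro κ κ' hκ hκ'
    have h1 := chain hB hK hκ hπ h
    have h2 := chain hB hK hκ' hπ h'
    rw [hx, Cs_Dp] at h1
    rw [hx', Cs_Dp] at h2
    nlinarith
  have hfac : Ms B π (m + 1) - π m * x = π m * (π m * Ms B π (m + 1) - x) := by
    have := hπ.sq m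
    calc Ms B π (m + 1) - π m * x = (π m * π m) * Ms B π (m + 1) - π m * x := by
          rw [this, one_mul]
      _ = _ := by ring
  constructor
  · obtain ⟨e, he, he'⟩ : ∃ e : ℝ, |e| ≤ 1 ∧
        e * (Ms B π (m + 1) - π m * x) = |π m * Ms B π (m + 1) - x| := by
      have h1 : |Ms B π (m + 1) - π m * x| = |π m * Ms B π (m + 1) - x| := by
        rw [hfac, hπ.abs_mul]
      rcases le_total 0 (Ms B π (m + 1) - π m * x) with h0 | h0
      · exact ⟨1, by norm_num, by rw [← h1, abs_of_nonneg h0]; ring⟩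
      · exact ⟨-1, by norm_num, by rw [← h1, abs_of_nonpos h0]; ring⟩
    have := key e e he he
    have e1 : 2 * B * (e + e) * (Ms B π (m + 1) - π m * x) =
        4 * B * (e * (Ms B π (m + 1) - π m * x)) := by ring
    rw [e1, he'] at this
    linarith
  · obtain ⟨e, he, he'⟩ : ∃ e : ℝ, |e| ≤ 1 ∧ e * As al π (m + 1) = |As al π (m + 1)| := by
      rcases le_total 0 (As al π (m + 1)) with h0 | h0
      · exact ⟨1, by norm_num, by rw [abs_of_nonneg h0]; ring⟩
      · exact ⟨-1, by norm_num, by rw [abs_of_nonpos h0]; ring⟩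
    have := key e (-e) he (by rw [abs_neg]; exact he)
    have e1 : 4 * B * (e - -e) * As al π (m + 1) = 8 * B * (e * As al π (m + 1)) := by ring
    rw [e1, he'] at this
    linarith

/-- the lower bound if there is no partition -/
theorem no_case {B K : ℝ} (hB : 1 ≤ B) {al : ℕ → ℝ} {m : ℕ}
    (hK2 : B ^ 2 * 4 ^ (m + 1) ≤ K) (hno : ∀ π, Sg π → 1 ≤ |As al π (m + 1)|)
    {l l' η η' : ℕ → ℝ} {x p q : ℝ} (hx : l (m + 1) = x) (hx' : l' (m + 1) = x)
    (h : ∀ j < m + 1, |Dp B al 1 j - l (j + 1) + η j| ≤ l j)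
    (h' : ∀ j < m + 1, |Dp B al (-1) j - l' (j + 1) + η' j| ≤ l' j)
    (hx0 : 0 ≤ x) (hpq : x ≤ p - q) :
    Sq B (m + 1) + 1 ≤ En B K l η (m + 1) + En B K l' η' (m + 1) - x ^ 2 +
      4 * (p - B * 2 ^ (m + 1)) ^ 2 + 4 * (q + B * 2 ^ (m + 1)) ^ 2 := by
  have hB0 : 0 ≤ B := by linarith
  have hK : 0 < K := lt_of_lt_of_le (by positivity) hK2
  have c1 : 0 ≤ 4 * (p - B * 2 ^ (m + 1)) ^ 2 := by positivity
  have c2 : 0 ≤ 4 * (q + B * 2 ^ (m + 1)) ^ 2 := by positivity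
  rcases le_or_gt x (B * 2 ^ (m + 2)) with hle | hgt
  · obtain ⟨π, hπ, hπx⟩ := exists_pat hB0 m x hx0 hle
    obtain ⟨t1, t2⟩ := two hB0 hK hπ hx hx' h h' hK2
    have hA := hno π hπ
    set y := π m * Ms B π (m + 1) - x with hy
    have hyy : y ^ 2 ≤ 2 * B * |y| := by
      rw [← sq_abs y, sq]
      exact mul_le_mul_of_nonneg_right hπx (abs_nonneg _)
    have : 8 * B ≤ 8 * B * |As al π (m + 1)| := by nlinarith
    linarith
  · set π : ℕ → ℝ := fun _ => 1 with hπdef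
    have hπ : Sg π := ⟨rfl, fun _ => Or.inl rfl⟩
    obtain ⟨t1, _⟩ := two hB0 hK hπ hx hx' h h' hK2
    have hM : ∀ k, Ms B π k = B * 2 ^ (k + 1) - 2 * B := by
      intro k
      induction k with
      | zero => rw [Ms_zero]; ring
      | succ k ih => rw [Ms_succ, ih, hπdef]; ring
    have hM' : π m * Ms B π (m + 1) = B * 2 ^ (m + 2) - 2 * B := by
      rw [hM, hπdef]; ring
    rw [hM'] at t1
    set U := B * 2 ^ (m + 2) with hU
    have hU2 : B * 2 ^ (m + 1) = U / 2 := by rw [hU]; ring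
    rw [hU2] at c1 c2 ⊢
    have habs : |U - 2 * B - x| = x - U + 2 * B := by
      rw [abs_of_nonpos (by linarith)]; ring
    rw [habs] at t1
    have hcl : 2 * (x - U) ^ 2 ≤ 4 * (p - U / 2) ^ 2 + 4 * (q + U / 2) ^ 2 := by
      have h1 : (x - U) ^ 2 ≤ (p - q - U) ^ 2 :=
        pow_le_pow_left₀ (by linarith) (by linarith) 2
      nlinarith [sq_nonneg (p - U / 2 + (q + U / 2))]
    nlinarith [sq_nonneg (x - U)]

end Pool.Agent.W2helper57.TUH
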