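import Pool.Agent.W2helper57.TUH.Build

set_option autoImplicit false

/-!
# Correctness of the reduction
-/

namespace Pool.Agent.NPC.W2h57TUH

open Pool.Agent.NPC Pool.Agent.W2helper57.TUH Pool.Agent.NPC.W2h57TU Finset

/-- the energy of real potentials -/
noncomputable def Qr (E : List Ed) (x : ℕ → ℝ) : ℝ :=
  (E.map fun e => (e.1 : ℝ) * (x e.2.1 - x e.2.2) ^ 2).sum

theorem Qr_nil (x : ℕ → ℝ) : Qr [] x = 0 := rfl

theorem Qr_cons (e : Ed) (E : List Ed) (x : ℕ → ℝ) :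
    Qr (e :: E) x = (e.1 : ℝ) * (x e.2.1 - x e.2.2) ^ 2 + Qr E x := by
  unfold Qr; rw [List.map_cons, List.sum_cons]

theorem Qr_append (E E' : List Ed) (x : ℕ → ℝ) : Qr (E ++ E') x = Qr E x + Qr E' x := by
  unfold Qr; rw [List.map_append, List.sum_append]

theorem Qr_flatMap (n : ℕ) (F : ℕ → List Ed) (x : ℕ → ℝ) :
    Qr ((List.range n).flatMap F) x = ∑ k ∈ range n, Qr (F k) x := by
  induction n with
  | zero => rfl
  | succ n ih =>
    rw [List.range_succ, List.flatMap_append, Qr_append, ih, sum_range_succ]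
    simp

theorem Qr_cast (E : List Ed) (z : ℕ → ℤ) : ((Qz E z : ℤ) : ℝ) = Qr E (fun k => (z k : ℝ)) := by
  induction E with
  | nil => simp [Qz, Qr]
  | cons e E ih =>
    rw [Qr_cons, ← ih]
    unfold Qz
    rw [List.map_cons, List.sum_cons]
    push_cast
    rfl

theorem Qr_affine (E : List Ed) (x : ℕ → ℝ) (c d : ℝ) :
    Qr E (fun k => c * x k + d) = c ^ 2 * Qr E x := by
  induction E with
  | nil => simp [Qr_nil]
  | cons e E ih =>
    rw [Qr_cons, Qr_cons, ih]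
    ring

theorem w2_eq {al : List ℕ} {k : ℕ} (hk : k ≤ al.length) : w2 al k = 2 ^ k := by
  unfold w2; rw [min_eq_left hk]

/-- the items as real numbers -/
def alr (al : List ℕ) (j : ℕ) : ℝ := (al.getD j 0 : ℕ)

theorem pD_eq {al : List ℕ} {k : ℕ} (hk : k < al.length) (s : ℤ) :
    ((pD al s k : ℤ) : ℝ) = Dp (pB al) (alr al) s k := by
  unfold pD Dp alr
  rw [w2_eq hk.le]
  push_cast
  ring

theorem pbe_eq {al : List ℕ} {k : ℕ} (hk : k ≤ al.length) :
    ((pbe al k : ℤ) : ℝ) = be (pB al) k := by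
  unfold pbe be
  rw [w2_eq hk]
  split_ifs
  · push_cast; rfl
  · push_cast; rfl

theorem sum_be (B : ℝ) (n : ℕ) : ∑ k ∈ range (n + 1), be B k = B * 2 ^ (n + 1) := by
  induction n with
  | zero => simp [be]; ring
  | succ n ih =>
    rw [sum_range_succ, ih, be_succ]
    ring

section

variable (al : List ℕ) (x : ℕ → ℝ)

/-- the lengths -/
def lx (ν k : ℕ) : ℝ := x (nd ν k 1) - x (nd ν k 0)

/-- the errors -/
noncomputable def hx (ν : ℕ) (s : ℤ) (k : ℕ) : ℝ :=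
  x (nd ν k 2) - x (nd ν (k + 1) 0) - (pD al s k : ℤ)

noncomputable def er1 (ν : ℕ) : ℝ :=
  ∑ k ∈ range (al.length + 1), (pbe al k : ℤ) * (x (nd ν k 0) ^ 2 + x (nd ν k 1) ^ 2)

noncomputable def er2 (ν : ℕ) (s : ℤ) : ℝ :=
  ∑ k ∈ range al.length,
    2 * (pK al : ℝ) * (pD al s k : ℤ) * (x (nd ν (k + 1) 0) ^ 2 + x (nd ν k 2) ^ 2)

variable {al x}

theorem sum1 (h0 : x 0 = -(pH al : ℝ)) (h1 : x 1 = pH al) (ν : ℕ) :
    ∑ k ∈ range (al.length + 1), Qr (lev1 al ν k) x =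
      8 * (pH al : ℝ) ^ 2 * (∑ k ∈ range (al.length + 1), be (pB al) k * lx x ν k) +
      4 * pH al * er1 al x ν + 16 * (pH al : ℝ) ^ 3 * pG al := by
  have e : 16 * (pH al : ℝ) ^ 3 * pG al =
      8 * (pH al : ℝ) ^ 3 * ∑ k ∈ range (al.length + 1), be (pB al) k := by
    rw [sum_be]
    unfold pG
    push_cast
    ring
  rw [e]
  unfold er1
  rw [mul_sum, mul_sum, mul_sum, ← sum_add_distrib, ← sum_add_distrib]
  refine sum_congr rfl fun k hk => ?_
  have hk' : k ≤ al.length := by have := mem_range.1 hk; omega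
  unfold lev1 lx
  rw [Qr_cons, Qr_cons, Qr_nil]
  simp only
  rw [h0, h1, ← pbe_eq hk']
  push_cast
  ring

theorem sum2 (h0 : x 0 = -(pH al : ℝ)) (h1 : x 1 = pH al) (ν : ℕ) (s : ℤ) :
    ∑ k ∈ range al.length, Qr (lev2 al ν s k) x =
      8 * (pH al : ℝ) ^ 2 * (pK al * ∑ k ∈ range al.length, hx al x ν s k ^ 2) +
      4 * pH al * er2 al x ν s +
      4 * (pH al : ℝ) ^ 2 * ∑ k ∈ range al.length, ((pqt al s k : ℤ) : ℝ) := by
  unfold er2
  rw [mul_sum, mul_sum, mul_sum, mul_sum, ← sum_add_distrib, ← sum_add_distrib]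
  refine sum_congr rfl fun k hk => ?_
  unfold lev2 hx pqt
  rw [Qr_cons, Qr_cons, Qr_cons, Qr_nil]
  simp only
  rw [h0, h1]
  push_cast
  ring

theorem cast_sum_map (n : ℕ) (f : ℕ → ℤ) :
    ((((List.range n).map f).sum : ℤ) : ℝ) = ∑ k ∈ range n, (f k : ℝ) := by
  induction n with
  | zero => simp
  | succ n ih =>
    rw [List.range_succ, List.map_append, List.sum_append, sum_range_succ, ← ih]
    push_cast
    simp

/-- the energy of potentials with fixed ends -/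
theorem Qr_eds (h0 : x 0 = -(pH al : ℝ)) (h1 : x 1 = pH al) :
    Qr (eds al) x = 8 * (pH al : ℝ) ^ 2 *
      (En (pB al) (pK al) (lx x 0) (hx al x 0 1) al.length +
        En (pB al) (pK al) (lx x 1) (hx al x 1 (-1)) al.length - lx x 0 al.length ^ 2 +
        4 * (x 2 - pG al) ^ 2 + 4 * (x 3 + pG al) ^ 2 - (pth al : ℤ)) +
      4 * pH al * (er1 al x 0 + er1 al x 1 + er2 al x 0 1 + er2 al x 1 (-1)) := by
  unfold eds
  rw [Qr_append, Qr_append, Qr_flatMap, Qr_flatMap]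
  simp only [Qr_append]
  rw [sum_add_distrib, sum_add_distrib, sum1 h0 h1, sum1 h0 h1, sum2 h0 h1, sum2 h0 h1]
  have e3 : Qr (lev3 al) x = 32 * (pH al : ℝ) ^ 2 * (x 2 - pG al) ^ 2 +
      32 * (pH al : ℝ) ^ 2 * (x 3 + pG al) ^ 2 - 8 * (pH al : ℝ) ^ 2 * lx x 0 al.length ^ 2 +
      64 * (pH al : ℝ) ^ 4 - 64 * (pH al : ℝ) ^ 2 * (pG al : ℝ) ^ 2 -
      4 * (pH al : ℝ) ^ 2 * (pq al : ℤ) := by
    unfold lev3 lx
    simp only [Qr_cons, Qr_nil]
    rw [h0, h1]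
    push_cast
    ring
  have e4 : ((pq al : ℤ) : ℝ) = 2 * (pth al : ℤ) + 8 * pH al * pG al +
      (∑ k ∈ range al.length, ((pqt al 1 k : ℤ) : ℝ) +
        ∑ k ∈ range al.length, ((pqt al (-1) k : ℤ) : ℝ)) -
      16 * (pG al : ℝ) ^ 2 + 16 * (pH al : ℝ) ^ 2 := by
    unfold pq
    rw [Int.cast_add, Int.cast_sub, Int.cast_add, cast_sum_map, ← sum_add_distrib]
    push_cast
    rfl
  rw [e3, e4]
  unfold En
  ring

end

end Pool.Agent.NPC.W2h57TUH
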