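import Pool.Agent.W2helper57.TUH.Corr

set_option autoImplicit false

/-!
# Correctness of the reduction: both directions
-/

namespace Pool.Agent.NPC.W2h57TUH

open Pool.Agent.NPC Pool.Agent.W2helper57.TUH Pool.Agent.NPC.W2h57TU Finset

/-- a list of numbers can be divided into two parts with the same sum -/
def Part (al : List ℕ) : Prop := ∃ π : ℕ → ℤ, (∀ k, π k = 1 ∨ π k = -1) ∧
  ∑ k ∈ range al.length, π k * (al.getD k 0 : ℤ) = 0

theorem getD_le_sum (al : List ℕ) (k : ℕ) : al.getD k 0 ≤ al.sum := by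
  induction al generalizing k with
  | nil => simp
  | cons a al ih =>
    cases k with
    | zero => simp
    | succ k =>
      have := ih k
      simp only [List.getD_cons_succ, List.sum_cons]
      omega

theorem pB_pos (al : List ℕ) : 1 ≤ pB al := by unfold pB; omega

theorem pG_pos (al : List ℕ) : 1 ≤ pG al := Nat.mul_pos (pB_pos al) (by positivity)

theorem pH_pos (al : List ℕ) : pG al ≤ pH al := by
  unfold pH
  have := pG_pos al
  calc pG al = 1 * pG al ^ 1 := by ring
    _ ≤ 1000 * pG al ^ 5 := Nat.mul_le_mul (by norm_num) (Nat.pow_le_pow_right this (by norm_num))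

theorem w2_pos (al : List ℕ) (k : ℕ) : 1 ≤ w2 al k := Nat.one_le_two_pow

theorem pD_nonneg {al : List ℕ} {s : ℤ} (hs : s = 1 ∨ s = -1) (k : ℕ) : 0 ≤ pD al s k := by
  have h1 := getD_le_sum al k
  have h2 := w2_pos al k
  have h3 : (1 : ℤ) ≤ (w2 al k : ℤ) := by exact_mod_cast h2
  have h4 : ((al.getD k 0 : ℕ) : ℤ) ≤ (pB al : ℤ) := by unfold pB; exact_mod_cast (by omega)
  have h5 : (pB al : ℤ) * 1 ≤ (pB al : ℤ) * w2 al k :=
    mul_le_mul_of_nonneg_left h3 (by positivity)
  have h6 : (0 : ℤ) ≤ (al.getD k 0 : ℕ) := by positivity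
  unfold pD
  rcases hs with rfl | rfl
  · nlinarith
  · nlinarith

theorem pbe_nonneg (al : List ℕ) (k : ℕ) : 0 ≤ pbe al k := by
  unfold pbe
  split_ifs <;> positivity

theorem pG_real (al : List ℕ) : (pG al : ℝ) = (pB al : ℝ) * 2 ^ al.length := by
  unfold pG; push_cast; ring

theorem pth_real (al : List ℕ) : ((pth al : ℤ) : ℝ) = Sq (pB al) al.length + 1 := by
  unfold pth Sq
  rw [Int.cast_add, cast_sum_map]
  push_cast
  congr 1
  refine sum_congr rfl fun k hk => ?_
  rw [w2_eq (mem_range.1 hk).le]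
  push_cast
  ring

/-- the order constraints for real potentials -/
structure OX (n : ℕ) (x : ℕ → ℝ) : Prop where
  ch : ∀ ν < 2, ∀ k < n, x (nd ν k 0) ≤ x (nd ν k 2) ∧ x (nd ν k 2) ≤ x (nd ν k 1) ∧
    x (nd ν k 0) ≤ x (nd ν (k + 1) 1) ∧ x (nd ν (k + 1) 1) ≤ x (nd ν k 1)
  ta : x (nd 0 n 0) = x (nd 1 n 0)
  tb : x (nd 0 n 1) = x (nd 1 n 1)
  top : x (nd 0 n 0) ≤ x (nd 0 n 1)
  up : x (nd 0 n 1) ≤ x 2
  lo : x 3 ≤ x (nd 0 n 0)

theorem OX.of_ords {al : List ℕ} {z : ℕ → ℤ} (hz : ∀ o ∈ ords al, z o.1 ≤ z o.2) :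
    OX al.length (fun k => (z k : ℝ)) := by
  have h1 : ∀ ν < 2, ∀ k < al.length, ∀ o ∈ ord1 ν k, (z o.1 : ℝ) ≤ z o.2 := by
    intro ν hν k hk o ho
    have : o ∈ ords al := by
      unfold ords
      rw [List.mem_append, List.mem_flatMap]
      refine Or.inl ⟨k, List.mem_range.2 hk, ?_⟩
      rw [List.mem_append]
      have : ν = 0 ∨ ν = 1 := by omega
      rcases this with rfl | rfl
      · exact Or.inl ho
      · exact Or.inr ho
    exact_mod_cast hz o this
  have h2 : ∀ o ∈ ord2 al.length, (z o.1 : ℝ) ≤ z o.2 := by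
    intro o ho
    have : o ∈ ords al := List.mem_append_right _ ho
    exact_mod_cast hz o this
  constructor
  · intro ν hν k hk
    have h := h1 ν hν k hk
    unfold ord1 at h
    simp only [List.mem_cons, List.not_mem_nil, or_false, forall_eq_or_imp, forall_eq] at h
    exact ⟨h.1, h.2.1, h.2.2.1, h.2.2.2⟩
  all_goals
    unfold ord2 at h2
    simp only [List.mem_cons, List.not_mem_nil, or_false, forall_eq_or_imp, forall_eq] at h2
    obtain ⟨g1, g2, g3, g4, g5, g6, g7, g8⟩ := h2
  · exact le_antisymm g1 g2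
  · exact le_antisymm g3 g4
  · exact g5
  · exact g6
  · exact g7

theorem ends_ords {al : List ℕ} {z : ℕ → ℤ} (hz : ∀ o ∈ ords al, z o.1 ≤ z o.2) :
    z 0 ≤ z 1 := by
  have : ((0, 1) : ℕ × ℕ) ∈ ords al := by
    apply List.mem_append_right
    unfold ord2
    simp
  exact hz _ this

theorem OX.affine {n : ℕ} {x : ℕ → ℝ} (h : OX n x) {c : ℝ} (hc : 0 ≤ c) (d : ℝ) :
    OX n (fun k => c * x k + d) := by
  have m : ∀ {u v : ℝ}, u ≤ v → c * u + d ≤ c * v + d := fun h =>
    add_le_add_left (mul_le_mul_of_nonneg_left h hc) _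
  refine ⟨fun ν hν k hk => ?_, ?_, ?_, m h.top, m h.up, m h.lo⟩
  · obtain ⟨h1, h2, h3, h4⟩ := h.ch ν hν k hk
    exact ⟨m h1, m h2, m h3, m h4⟩
  · rw [h.ta]
  · rw [h.tb]

theorem er1_nonneg (al : List ℕ) (x : ℕ → ℝ) (ν : ℕ) : 0 ≤ er1 al x ν := by
  refine sum_nonneg fun k _ => mul_nonneg ?_ (by positivity)
  exact_mod_cast pbe_nonneg al k

theorem er2_nonneg (al : List ℕ) (x : ℕ → ℝ) (ν : ℕ) {s : ℤ} (hs : s = 1 ∨ s = -1) :
    0 ≤ er2 al x ν s := by
  refine sum_nonneg fun k _ => mul_nonneg (mul_nonneg (by positivity) ?_) (by positivity)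
  exact_mod_cast pD_nonneg hs k

theorem no_part {al : List ℕ} (hno : ¬Part al) (π : ℕ → ℝ) (hπ : Sg π) :
    1 ≤ |As (alr al) π al.length| := by
  classical
  set πz : ℕ → ℤ := fun k => if π k = 1 then 1 else -1 with hπz
  have h1 : ∀ k, πz k = 1 ∨ πz k = -1 := by
    intro k
    rw [hπz]
    simp only
    split_ifs <;> simp
  have h2 : ∀ k, ((πz k : ℤ) : ℝ) = π k := by
    intro k
    rw [hπz]
    simp only
    split_ifs with h
    · rw [h]; norm_num
    · rcases hπ.2 k with h' | h'
      · exact absurd h' h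
      · rw [h']; norm_num
  have h3 : ∑ k ∈ range al.length, πz k * (al.getD k 0 : ℤ) ≠ 0 := fun h => hno ⟨πz, h1, h⟩
  have h4 : As (alr al) π al.length =
      ((∑ k ∈ range al.length, πz k * (al.getD k 0 : ℤ) : ℤ) : ℝ) := by
    unfold As alr
    push_cast
    refine sum_congr rfl fun k _ => ?_
    rw [h2]
  rw [h4]
  have := Int.one_le_abs h3
  exact_mod_cast this

theorem sgn_cast {s : ℤ} (hs : s = 1 ∨ s = -1) : ((s : ℤ) : ℝ) = 1 ∨ ((s : ℤ) : ℝ) = -1 := by
  rcases hs with rfl | rfl
  · left; norm_num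
  · right; norm_num

theorem chain_cond {al : List ℕ} {x : ℕ → ℝ} (h : OX al.length x) {ν : ℕ} (hν : ν < 2) (s : ℤ)
    {j : ℕ} (hj : j < al.length) :
    |Dp (pB al) (alr al) s j - lx x ν (j + 1) + hx al x ν s j| ≤ lx x ν j := by
  obtain ⟨h1, h2, h3, h4⟩ := h.ch ν hν j hj
  have e : Dp (pB al) (alr al) s j - lx x ν (j + 1) + hx al x ν s j =
      x (nd ν j 2) - x (nd ν (j + 1) 1) := by
    unfold lx hx
    rw [pD_eq hj]
    ring
  rw [e]
  unfold lx
  rw [abs_le]
  constructor <;> linarith

/-- if there is no partition the energy is nonnegative -/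
theorem no_red {al : List ℕ} (hne : al ≠ []) (hno : ¬Part al) {z : ℕ → ℤ}
    (hz : ∀ o ∈ ords al, z o.1 ≤ z o.2) : 0 ≤ Qz (eds al) z := by
  have hox := OX.of_ords hz
  have h01 := ends_ords hz
  have hHpos : (0 : ℝ) < pH al := by
    have h1 := pG_pos al
    have h2 := pH_pos al
    exact_mod_cast (by omega : 0 < pH al)
  have hGH : (pG al : ℝ) ≤ pH al := by exact_mod_cast pH_pos al
  have goal : 0 ≤ Qr (eds al) (fun k => (z k : ℝ)) := by
    rcases h01.eq_or_lt with h | h
    · -- the ends coincide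
      unfold eds
      rw [Qr_append, Qr_append, Qr_flatMap, Qr_flatMap]
      have p1 : ∀ ν k, 0 ≤ Qr (lev1 al ν k) (fun k => (z k : ℝ)) := by
        intro ν k
        unfold lev1
        simp only [Qr_cons, Qr_nil]
        have := pbe_nonneg al k
        have h' : (0 : ℝ) ≤ ((4 * pH al * pbe al k : ℤ) : ℝ) := by exact_mod_cast (by positivity)
        have g1 := mul_nonneg h' (sq_nonneg ((z (nd ν k 1) : ℝ) - z 0))
        have g2 := mul_nonneg h' (sq_nonneg ((z 1 : ℝ) - z (nd ν k 0)))
        linarith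
      have p2 : ∀ ν k, ∀ s : ℤ, s = 1 ∨ s = -1 →
          0 ≤ Qr (lev2 al ν s k) (fun k => (z k : ℝ)) := by
        intro ν k s hs
        unfold lev2
        simp only [Qr_cons, Qr_nil]
        have := pD_nonneg (al := al) hs k
        have h' : (0 : ℝ) ≤ ((8 * pH al * pK al * pD al s k : ℤ) : ℝ) := by
          exact_mod_cast (by positivity)
        have h'' : (0 : ℝ) ≤ ((8 * (pH al : ℤ) ^ 2 * pK al : ℤ) : ℝ) := by
          exact_mod_cast (by positivity)
        have g1 := mul_nonneg h' (sq_nonneg ((z (nd ν (k + 1) 0) : ℝ) - z 0))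
        have g2 := mul_nonneg h' (sq_nonneg ((z 1 : ℝ) - z (nd ν k 2)))
        have g3 := mul_nonneg h'' (sq_nonneg ((z (nd ν k 2) : ℝ) - z (nd ν (k + 1) 0)))
        linarith
      have q1 : 0 ≤ ∑ k ∈ range (al.length + 1),
          Qr (lev1 al 0 k ++ lev1 al 1 k) (fun k => (z k : ℝ)) :=
        sum_nonneg fun k _ => by rw [Qr_append]; exact add_nonneg (p1 0 k) (p1 1 k)
      have q2 : 0 ≤ ∑ k ∈ range al.length,
          Qr (lev2 al 0 1 k ++ lev2 al 1 (-1) k) (fun k => (z k : ℝ)) :=
        sum_nonneg fun k _ => by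
          rw [Qr_append]
          exact add_nonneg (p2 0 k 1 (Or.inl rfl)) (p2 1 k (-1) (Or.inr rfl))
      have q3 : 0 ≤ Qr (lev3 al) (fun k => (z k : ℝ)) := by
        unfold lev3
        simp only [Qr_cons, Qr_nil]
        have hz10 : (z 1 : ℝ) = z 0 := by rw [h]
        have u1 := hox.top
        have u2 := hox.up
        have u3 := hox.lo
        set a : ℝ := ((z (nd 0 al.length 0) : ℤ) : ℝ)
        set b : ℝ := ((z (nd 0 al.length 1) : ℤ) : ℝ)
        set p : ℝ := ((z 2 : ℤ) : ℝ)
        set q : ℝ := ((z 3 : ℤ) : ℝ)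
        set o : ℝ := ((z 0 : ℤ) : ℝ)
        rw [hz10]
        push_cast
        have v1 : (b - a) ^ 2 ≤ (p - q) ^ 2 := pow_le_pow_left₀ (by linarith) (by linarith) 2
        have v2 : (p - q) ^ 2 ≤ 2 * ((p - o) ^ 2 + (q - o) ^ 2) := by
          nlinarith [sq_nonneg (p - o + (q - o))]
        have v3 : 0 ≤ 8 * (pH al : ℝ) ^ 2 * (4 * ((p - o) ^ 2 + (q - o) ^ 2) - (b - a) ^ 2) := by
          apply mul_nonneg (by positivity)
          nlinarith [sq_nonneg (p - o), sq_nonneg (q - o)]
        nlinarith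
      linarith
    · -- distinct ends
      obtain ⟨m, hm⟩ : ∃ m, al.length = m + 1 :=
        ⟨al.length - 1, by have := List.length_pos_iff.2 hne; omega⟩
      set s : ℝ := (z 1 : ℝ) - z 0 with hs
      have hs0 : 0 < s := by
        rw [hs]
        have : (z 0 : ℝ) < z 1 := by exact_mod_cast h
        linarith
      set c : ℝ := 2 * pH al / s with hc
      have hc0 : 0 < c := by positivity
      set d : ℝ := -(c * z 0) - pH al with hd
      have hQ := Qr_affine (eds al) (fun k => (z k : ℝ)) c d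
      have hox' := hox.affine hc0.le d
      set x : ℕ → ℝ := fun k => c * (z k : ℝ) + d with hxdef
      have hx0 : x 0 = -(pH al : ℝ) := by rw [hxdef]; simp only; rw [hd]; ring
      have hx1 : x 1 = pH al := by
        have : c * s = 2 * pH al := by rw [hc]; field_simp
        have e : x 1 = c * s - pH al := by rw [hxdef]; simp only; rw [hd, hs]; ring
        rw [e, this]; ring
      have hE := Qr_eds hx0 hx1
      have hmain := no_case (B := (pB al : ℝ)) (K := (pK al : ℝ)) (al := alr al) (m := m)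
        (by exact_mod_cast pB_pos al) (by
          rw [← hm]
          unfold pK
          push_cast
          rw [pG_real, show (4 : ℝ) = 2 ^ 2 by norm_num, ← pow_mul]
          apply le_of_eq
          ring) (fun π hπ => by rw [← hm]; exact no_part hno π hπ)
        (l := lx x 0) (l' := lx x 1) (η := hx al x 0 1) (η' := hx al x 1 (-1))
        (x := lx x 0 al.length) (p := x 2) (q := x 3) (by rw [hm]) (by
          rw [← hm]
          unfold lx
          rw [hox'.ta, hox'.tb])
        (fun j hj => by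
          have := chain_cond hox' (ν := 0) (by norm_num) 1 (j := j) (by omega)
          simpa using this)
        (fun j hj => by
          have := chain_cond hox' (ν := 1) (by norm_num) (-1) (j := j) (by omega)
          simpa using this)
        (by unfold lx; have := hox'.top; linarith)
        (by unfold lx; have h1 := hox'.up; have h2 := hox'.lo; linarith)
      rw [← hm, ← pG_real, ← pth_real] at hmain
      have e1 := er1_nonneg al x 0
      have e2 := er1_nonneg al x 1
      have e3 := er2_nonneg al x 0 (s := 1) (Or.inl rfl)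
      have e4 := er2_nonneg al x 1 (s := -1) (Or.inr rfl)
      have hpos : 0 ≤ Qr (eds al) x := by
        rw [hE]
        apply add_nonneg
        · apply mul_nonneg (by positivity)
          linarith
        · apply mul_nonneg (by positivity)
          linarith
      rw [hQ] at hpos
      exact nonneg_of_mul_nonneg_right hpos (by positivity)
  rw [← Qr_cast] at goal
  exact_mod_cast goal

end Pool.Agent.NPC.W2h57TUH
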