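import Mathlib

set_option autoImplicit false

/-!
# Separable quadratic integer programs
-/

namespace Pool.Agent.W2helper57.TUH

/-- An instance `I`: the list `I.1` contains, for every variable, its quadratic and its linear
coefficient (the number of variables is `I.1.length`); the list `I.2` contains the rows of the
constraint matrix, each with its right hand side. -/
abbrev Inst : Type := List (ℤ × ℤ) × List (List ℤ × ℤ)

/-- the constraint matrix -/
def mat (I : Inst) : Matrix (Fin I.2.length) (Fin I.1.length) ℤ :=
  fun r j => (I.2.get r).1.getD j 0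

/-- the right hand sides -/
def rhs (I : Inst) (r : Fin I.2.length) : ℤ := (I.2.get r).2

/-- feasible points -/
def Feas (I : Inst) (x : Fin I.1.length → ℤ) : Prop := ∀ r, (mat I).mulVec x r ≤ rhs I r

/-- the objective function `∑ (a_j x_j² + h_j x_j)`; the variable `j` is convex if `a_j > 0` and
concave if `a_j < 0` -/
def obj (I : Inst) (x : Fin I.1.length → ℤ) : ℤ :=
  ∑ j, ((I.1.get j).1 * x j ^ 2 + (I.1.get j).2 * x j)

/-- the number of concave variables -/
def concave (I : Inst) : ℕ := (Finset.univ.filter fun j => (I.1.get j).1 < 0).card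

/-- optimal solutions -/
def Opt (I : Inst) (x : Fin I.1.length → ℤ) : Prop := Feas I x ∧ ∀ y, Feas I y → obj I x ≤ obj I y

/-- the instance is unbounded below -/
def Unb (I : Inst) : Prop := ∀ B : ℤ, ∃ x, Feas I x ∧ obj I x < B

/-- `ε`-approximate solutions: for every optimal solution `xs` and every supremum `M` of the
objective function on the feasible set, `f(x) - f(xs) ≤ ε (M - f(xs))` (no condition if the
objective function is unbounded above). -/
def Approx (I : Inst) (ε : ℝ) (x : Fin I.1.length → ℤ) : Prop :=
  Feas I x ∧ ∀ xs, Opt I xs → ∀ M : ℝ, IsLUB {v | ∃ y, Feas I y ∧ v = (obj I y : ℝ)} M →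
    (obj I x : ℝ) - obj I xs ≤ ε * (M - obj I xs)

end Pool.Agent.W2helper57.TUH
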