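import Pool.Agent.W2helper57.TUH.Yes
import Pool.Agent.H671R2.SubsetSum

set_option autoImplicit false

/-!
# Hardness of recognizing unbounded instances
-/

namespace Pool.Agent.NPC.W2h57TUH

open Pool.Agent.NPC Pool.Agent.W2helper57.TUH Pool.Agent.NPC.W2h57TU

theorem nd_lt {ν k τ n : ℕ} (hν : ν < 2) (hτ : τ < 3) (hk : k ≤ n) :
    nd ν k τ < 4 + 6 * (n + 1) := by
  unfold nd; omega

theorem gok_red (al : List ℕ) : Gok (nn al) (eds al) (ords al) := by
  unfold nn
  constructor
  · intro e he
    unfold eds at he
    rw [List.mem_append, List.mem_append, List.mem_flatMap, List.mem_flatMap] at he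
    rcases he with ⟨k, hk, he⟩ | ⟨k, hk, he⟩ | he
    · rw [List.mem_range] at hk
      unfold lev1 nd at he
      simp only [List.mem_append, List.mem_cons, List.not_mem_nil, or_false] at he
      rcases he with (rfl | rfl) | (rfl | rfl) <;> simp only <;> omega
    · rw [List.mem_range] at hk
      unfold lev2 nd at he
      simp only [List.mem_append, List.mem_cons, List.not_mem_nil, or_false] at he
      rcases he with (rfl | rfl | rfl) | (rfl | rfl | rfl) <;> simp only <;> omega
    · unfold lev3 nd at he
      simp only [List.mem_cons, List.not_mem_nil, or_false] at he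
      rcases he with rfl | rfl | rfl | rfl | rfl | rfl <;> simp only <;> omega
  · intro o ho
    unfold ords at ho
    rw [List.mem_append, List.mem_flatMap] at ho
    rcases ho with ⟨k, hk, ho⟩ | ho
    · rw [List.mem_range] at hk
      unfold ord1 nd at ho
      simp only [List.mem_append, List.mem_cons, List.not_mem_nil, or_false] at ho
      rcases ho with (rfl | rfl | rfl | rfl) | (rfl | rfl | rfl | rfl) <;> simp only <;> omega
    · unfold ord2 nd at ho
      simp only [List.mem_cons, List.not_mem_nil, or_false] at ho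
      rcases ho with rfl | rfl | rfl | rfl | rfl | rfl | rfl | rfl <;> simp only <;> omega

theorem tu_red (al : List ℕ) : (mat (red al)).IsTotallyUnimodular := tu_gi (gok_red al)

theorem count_zero {E : List Ed} (h : ∀ e ∈ E, 0 ≤ e.1) :
    (E.map fun e => if e.1 < 0 then 1 else 0).sum = 0 := by
  apply List.sum_eq_zero
  intro a ha
  rw [List.mem_map] at ha
  obtain ⟨e, he, rfl⟩ := ha
  rw [if_neg (not_lt.2 (h e he))]

theorem concave_red (al : List ℕ) : concave (red al) ≤ 2 := by
  unfold red
  rw [concave_gi]
  unfold eds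
  rw [List.map_append, List.map_append, List.sum_append, List.sum_append,
    count_zero, count_zero, zero_add, zero_add]
  · unfold lev3
    have h1 : (pG al : ℤ) ≤ pH al := by exact_mod_cast pH_pos al
    have h2 : (0 : ℤ) ≤ 16 * pH al * ((pH al : ℤ) - pG al) :=
      mul_nonneg (by positivity) (by linarith)
    have h3 : (0 : ℤ) ≤ 16 * pH al * ((pH al : ℤ) + pG al) := by positivity
    simp only [List.map_cons, List.map_nil, List.sum_cons, List.sum_nil]
    rw [if_neg (not_lt.2 h2), if_neg (not_lt.2 h3)]
    split_ifs <;> norm_num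
  · intro e he
    rw [List.mem_flatMap] at he
    obtain ⟨k, hk, he⟩ := he
    have h1 := pD_nonneg (al := al) (s := 1) (Or.inl rfl) k
    have h2 := pD_nonneg (al := al) (s := -1) (Or.inr rfl) k
    unfold lev2 at he
    simp only [List.mem_append, List.mem_cons, List.not_mem_nil, or_false] at he
    rcases he with (rfl | rfl | rfl) | (rfl | rfl | rfl) <;> simp only <;> positivity
  · intro e he
    rw [List.mem_flatMap] at he
    obtain ⟨k, hk, he⟩ := he
    have h1 := pbe_nonneg al k
    unfold lev1 at he
    simp only [List.mem_append, List.mem_cons, List.not_mem_nil, or_false] at he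
    rcases he with (rfl | rfl) | (rfl | rfl) <;> simp only <;> positivity

/-- the instance of a list is unbounded if and only if the list has a partition -/
theorem red_iff {al : List ℕ} (hne : al ≠ []) : Part al ↔ Unb (red al) := by
  unfold red
  rw [unb_gi (gok_red al)]
  constructor
  · exact yes_red hne
  · rintro ⟨z, hz, hQ⟩
    by_contra hno
    exact absurd (no_red hne hno hz) (not_le.2 hQ)

/-! ### From subset sum -/

/-- `x` is a signed sum of the list -/
def Rc : List ℕ → ℤ → Prop
  | [], x => x = 0
  | a :: l, x => Rc l (x - a) ∨ Rc l (x + a)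

theorem Rc_signs : ∀ (l : List ℕ) (x : ℤ), Rc l x ↔ ∃ π : ℕ → ℤ, (∀ k, π k = 1 ∨ π k = -1) ∧
    ∑ k ∈ Finset.range l.length, π k * (l.getD k 0 : ℤ) = x := by
  intro l
  induction l with
  | nil =>
    intro x
    simp only [Rc, List.length_nil, Finset.range_zero, Finset.sum_empty]
    constructor
    · intro h; exact ⟨fun _ => 1, fun _ => Or.inl rfl, h.symm⟩
    · rintro ⟨_, _, h⟩; exact h.symm
  | cons a l ih =>
    intro x
    simp only [Rc, List.length_cons]
    rw [ih, ih]
    constructor
    · rintro (⟨π, h1, h2⟩ | ⟨π, h1, h2⟩)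
      · refine ⟨fun k => if k = 0 then 1 else π (k - 1), fun k => ?_, ?_⟩
        · simp only; split_ifs
          · exact Or.inl rfl
          · exact h1 _
        · rw [Finset.sum_range_succ']
          simp only [Nat.add_eq_zero_iff, one_ne_zero, and_false, if_false, if_true,
            Nat.add_sub_cancel, List.getD_cons_succ, List.getD_cons_zero]
          rw [h2]; ring
      · refine ⟨fun k => if k = 0 then -1 else π (k - 1), fun k => ?_, ?_⟩
        · simp only; split_ifs
          · exact Or.inr rfl
          · exact h1 _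
        · rw [Finset.sum_range_succ']
          simp only [Nat.add_eq_zero_iff, one_ne_zero, and_false, if_false, if_true,
            Nat.add_sub_cancel, List.getD_cons_succ, List.getD_cons_zero]
          rw [h2]; ring
    · rintro ⟨π, h1, h2⟩
      rw [Finset.sum_range_succ'] at h2
      simp only [List.getD_cons_succ, List.getD_cons_zero] at h2
      rcases h1 0 with h | h
      · left
        refine ⟨fun k => π (k + 1), fun k => h1 _, ?_⟩
        rw [h] at h2
        linarith
      · right
        refine ⟨fun k => π (k + 1), fun k => h1 _, ?_⟩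
        rw [h] at h2
        linarith

theorem Rc_neg : ∀ (l : List ℕ) (x : ℤ), Rc l x → Rc l (-x) := by
  intro l x h
  obtain ⟨π, h1, h2⟩ := (Rc_signs l x).1 h
  refine (Rc_signs l (-x)).2 ⟨fun k => -π k, fun k => ?_, ?_⟩
  · change -π k = 1 ∨ -π k = -1
    rcases h1 k with h | h <;> rw [h] <;> simp
  · simp only [neg_mul]
    rw [Finset.sum_neg_distrib, h2]

theorem Rc_sub : ∀ (l : List ℕ) (t : ℤ), Rc l (2 * t - l.sum) ↔
    ∃ s : List ℕ, s.Sublist l ∧ (s.sum : ℤ) = t := by
  intro l
  induction l with
  | nil =>
    intro t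
    simp only [Rc, List.sum_nil, List.sublist_nil]
    constructor
    · intro h; exact ⟨[], rfl, by simp; push_cast at h; omega⟩
    · rintro ⟨s, rfl, h⟩; simp at h; push_cast; omega
  | cons a l ih =>
    intro t
    simp only [Rc, List.sum_cons]
    have e1 : 2 * t - ((a + l.sum : ℕ) : ℤ) - a = 2 * (t - a) - l.sum := by push_cast; ring
    have e2 : 2 * t - ((a + l.sum : ℕ) : ℤ) + a = 2 * t - l.sum := by push_cast; ring
    rw [e1, e2, ih, ih]
    constructor
    · rintro (⟨s, h1, h2⟩ | ⟨s, h1, h2⟩)
      · exact ⟨a :: s, h1.cons_cons a, by rw [List.sum_cons, Nat.cast_add]; omega⟩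
      · exact ⟨s, h1.cons a, h2⟩
    · rintro ⟨s, h1, h2⟩
      rcases List.sublist_cons_iff.1 h1 with h | ⟨r, rfl, h⟩
      · exact Or.inr ⟨s, h, h2⟩
      · left
        refine ⟨r, h, ?_⟩
        rw [List.sum_cons, Nat.cast_add] at h2
        omega

/-- the list of a subset sum instance -/
def toPart (x : List ℕ × ℕ) : List ℕ := (2 * (x.2 : ℤ) - (x.1.sum : ℕ)).natAbs :: x.1

theorem poly_toPart : Poly toPart :=
  Poly.cons (Poly.natAbs (Poly.isub (Poly.imul (Poly.const 2) (Poly.natCast (Poly.snd Poly.id)))
    (Poly.natCast (Poly.sum (Poly.fst Poly.id))))) (Poly.fst Poly.id)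

theorem toPart_iff (x : List ℕ × ℕ) : R671.SS.SubsetSum x ↔ Part (toPart x) := by
  have h1 : Part (toPart x) ↔ Rc (toPart x) 0 := (Rc_signs _ _).symm
  have h2 : Rc (toPart x) 0 ↔ Rc x.1 (2 * (x.2 : ℤ) - (x.1.sum : ℕ)) := by
    unfold toPart
    set d : ℤ := 2 * (x.2 : ℤ) - (x.1.sum : ℕ) with hd
    change Rc x.1 (0 - (d.natAbs : ℤ)) ∨ Rc x.1 (0 + (d.natAbs : ℤ)) ↔ _
    rw [zero_sub, zero_add]
    rcases Int.natAbs_eq d with h | h
    · rw [← h]
      exact ⟨fun h => h.elim (fun h => by simpa using Rc_neg _ _ h) id, Or.inr⟩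
    · have h' : ((d.natAbs : ℕ) : ℤ) = -d := by omega
      rw [h', neg_neg]
      exact ⟨fun h => h.elim id (fun h => by simpa using Rc_neg _ _ h), Or.inl⟩
  rw [h1, h2, Rc_sub]
  unfold R671.SS.SubsetSum
  simp only [Nat.cast_inj]

theorem hardPr_Part : HardPr (fun al : List ℕ => al ≠ []) Part :=
  R671.SS.hardPr_SubsetSum.trans poly_toPart (fun _ _ => List.cons_ne_nil _ _)
    (fun x _ => toPart_iff x)

/-- It is `NP`-hard to recognize the unbounded instances among the instances with a totally
unimodular matrix and at most two concave variables. -/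
theorem hardPr_unb : HardPr (fun I : Inst => (mat I).IsTotallyUnimodular ∧ concave I ≤ 2) Unb :=
  hardPr_Part.trans poly_red (fun al _ => ⟨tu_red al, concave_red al⟩) (fun _ h => red_iff h)

end Pool.Agent.NPC.W2h57TUH
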