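import Pool.Agent.W2helper57.TUH.Defs
import Pool.Agent.W2helper57.TU.Top
import Pool.Agent.H478R3.Rad.TU

set_option autoImplicit false

/-!
# Weighted graphs with order constraints as quadratic programs
-/

namespace Pool.Agent.NPC.W2h57TUH

open Pool.Agent.NPC Pool.Agent.W2helper57.TUH Pool.Agent.NPC.W2h57TU

/-- an edge with its weight -/
abbrev Ed : Type := ℤ × ℕ × ℕ

/-- the row `σ (t_i - z_u + z_v)` -/
def rowE (L N i : ℕ) (σ : ℤ) (u v : ℕ) : List ℤ :=
  (List.range L).map fun j => if j = N + i then σ else if j = u then -σ else if j = v then σ else 0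

/-- the row `z_u - z_v` -/
def rowO (L u v : ℕ) : List ℤ :=
  (List.range L).map fun j => if j = u then 1 else if j = v then -1 else 0

/-- the quadratic program of a graph: one variable for every node, one for every edge -/
def gi (N : ℕ) (E : List Ed) (O : List (ℕ × ℕ)) : Inst :=
  ((List.range N).map (fun _ => ((0 : ℤ), (0 : ℤ))) ++ E.map (fun e => (e.1, (0 : ℤ))),
   (E.zipIdx.flatMap fun e =>
      [(rowE (N + E.length) N e.2 1 e.1.2.1 e.1.2.2, (0 : ℤ)),
       (rowE (N + E.length) N e.2 (-1) e.1.2.1 e.1.2.2, (0 : ℤ))]) ++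
    O.map fun o => (rowO (N + E.length) o.1 o.2, (0 : ℤ)))

/-- the ends of the edges and of the order constraints are distinct nodes -/
def Gok (N : ℕ) (E : List Ed) (O : List (ℕ × ℕ)) : Prop :=
  (∀ e ∈ E, e.2.1 < N ∧ e.2.2 < N ∧ e.2.1 ≠ e.2.2) ∧ ∀ o ∈ O, o.1 < N ∧ o.2 < N ∧ o.1 ≠ o.2

/-- the energy of potentials -/
def Qz (E : List Ed) (z : ℕ → ℤ) : ℤ := (E.map fun e => e.1 * (z e.2.1 - z e.2.2) ^ 2).sum

section

variable {N : ℕ} {E : List Ed} {O : List (ℕ × ℕ)}

theorem len_gi : (gi N E O).1.length = N + E.length := by simp [gi]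

/-- a vector as a function on the natural numbers -/
def ex {n : ℕ} (x : Fin n → ℤ) (k : ℕ) : ℤ := if h : k < n then x ⟨k, h⟩ else 0

theorem ex_fin {n : ℕ} (x : Fin n → ℤ) (j : Fin n) : ex x j = x j := by
  unfold ex; rw [dif_pos j.2]

theorem sum_ex {n L : ℕ} (hL : n = L) (x : Fin n → ℤ) (f : ℕ → ℤ → ℤ) :
    ∑ j : Fin n, f j (x j) = ∑ k ∈ Finset.range L, f k (ex x k) := by
  subst hL
  rw [Finset.sum_range]
  exact Finset.sum_congr rfl fun j _ => by rw [ex_fin]

theorem sum_rowE {L i u v : ℕ} (σ : ℤ) (hi : N + i < L) (hu : u < N) (hv : v < N) (huv : u ≠ v)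
    (X : ℕ → ℤ) : ∑ k ∈ Finset.range L, (rowE L N i σ u v).getD k 0 * X k =
      σ * (X (N + i) - X u + X v) := by
  have h : ∀ k ∈ Finset.range L, (rowE L N i σ u v).getD k 0 * X k =
      (if k = N + i then σ * X k else 0) + ((if k = u then -σ * X k else 0) +
        (if k = v then σ * X k else 0)) := by
    intro k hk
    unfold rowE
    rw [getD_map_range', if_pos (Finset.mem_range.1 hk)]
    by_cases h1 : k = N + i
    · rw [if_pos h1, if_pos h1, if_neg (by omega), if_neg (by omega)]; ring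
    · rw [if_neg h1, if_neg h1]
      by_cases h2 : k = u
      · rw [if_pos h2, if_pos h2, if_neg (by omega)]; ring
      · rw [if_neg h2, if_neg h2]
        by_cases h3 : k = v
        · rw [if_pos h3, if_pos h3]; ring
        · rw [if_neg h3, if_neg h3]; ring
  rw [Finset.sum_congr rfl h, Finset.sum_add_distrib, Finset.sum_add_distrib,
    Finset.sum_ite_eq', Finset.sum_ite_eq', Finset.sum_ite_eq', if_pos (Finset.mem_range.2 hi),
    if_pos (Finset.mem_range.2 (by omega)), if_pos (Finset.mem_range.2 (by omega))]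
  ring

theorem sum_rowO {L u v : ℕ} (hu : u < L) (hv : v < L) (huv : u ≠ v) (X : ℕ → ℤ) :
    ∑ k ∈ Finset.range L, (rowO L u v).getD k 0 * X k = X u - X v := by
  have h : ∀ k ∈ Finset.range L, (rowO L u v).getD k 0 * X k =
      (if k = u then X k else 0) + (if k = v then -X k else 0) := by
    intro k hk
    unfold rowO
    rw [getD_map_range', if_pos (Finset.mem_range.1 hk)]
    by_cases h2 : k = u
    · rw [if_pos h2, if_pos h2, if_neg (by omega)]; ring
    · rw [if_neg h2, if_neg h2]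
      by_cases h3 : k = v
      · rw [if_pos h3, if_pos h3]; ring
      · rw [if_neg h3, if_neg h3]; ring
  rw [Finset.sum_congr rfl h, Finset.sum_add_distrib, Finset.sum_ite_eq', Finset.sum_ite_eq',
    if_pos (Finset.mem_range.2 hu), if_pos (Finset.mem_range.2 hv)]
  ring

theorem feas_rows {I : Inst} {L : ℕ} (hL : I.1.length = L) (x : Fin I.1.length → ℤ) :
    Feas I x ↔ ∀ q ∈ I.2, ∑ k ∈ Finset.range L, q.1.getD k 0 * ex x k ≤ q.2 := by
  have key : ∀ r, (mat I).mulVec x r = ∑ k ∈ Finset.range L, (I.2.get r).1.getD k 0 * ex x k := by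
    intro r
    rw [← sum_ex hL x (fun k t => (I.2.get r).1.getD k 0 * t)]
    rfl
  constructor
  · intro h q hq
    obtain ⟨r, rfl⟩ := List.get_of_mem hq
    rw [← key r]
    exact h r
  · intro h r
    rw [key r]
    exact h _ (List.get_mem _ _)

theorem mem_rows (q : List ℤ × ℤ) : q ∈ (gi N E O).2 ↔ (∃ i, ∃ hi : i < E.length,
      q = (rowE (N + E.length) N i 1 E[i].2.1 E[i].2.2, (0 : ℤ)) ∨
      q = (rowE (N + E.length) N i (-1) E[i].2.1 E[i].2.2, (0 : ℤ))) ∨
      ∃ o ∈ O, q = (rowO (N + E.length) o.1 o.2, (0 : ℤ)) := by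
    unfold gi
    simp only [List.mem_append, List.mem_flatMap, List.mem_map, List.mem_cons,
      List.not_mem_nil, or_false]
    constructor
    · rintro (⟨⟨e, i⟩, he, h⟩ | ⟨o, ho, rfl⟩)
      · left
        have := List.mem_zipIdx he
        obtain ⟨_, h1, h2⟩ := this
        simp only [Nat.zero_add, Nat.sub_zero] at h1 h2
        refine ⟨i, h1, ?_⟩
        rw [← h2]
        exact h
      · exact Or.inr ⟨o, ho, rfl⟩
    · rintro (⟨i, hi, h⟩ | ⟨o, ho, rfl⟩)
      · left
        refine ⟨(E[i], i), ?_, h⟩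
        rw [List.mk_mem_zipIdx_iff_getElem?]
        simp [hi]
      · exact Or.inr ⟨o, ho, rfl⟩

theorem feas_gi (hok : Gok N E O) (x : Fin (gi N E O).1.length → ℤ) :
    Feas (gi N E O) x ↔ (∀ i (hi : i < E.length),
      ex x (N + i) = ex x (E[i].2.1) - ex x (E[i].2.2)) ∧ ∀ o ∈ O, ex x o.1 ≤ ex x o.2 := by
  rw [feas_rows len_gi]
  have hmem := @mem_rows N E O
  constructor
  · intro h
    constructor
    · intro i hi
      obtain ⟨e1, e2, e3⟩ := hok.1 _ (List.getElem_mem hi)
      have h1 := h _ ((hmem _).2 (Or.inl ⟨i, hi, Or.inl rfl⟩))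
      have h2 := h _ ((hmem _).2 (Or.inl ⟨i, hi, Or.inr rfl⟩))
      rw [sum_rowE _ (by omega) e1 e2 e3] at h1 h2
      linarith
    · intro o ho
      obtain ⟨e1, e2, e3⟩ := hok.2 o ho
      have h1 := h _ ((hmem _).2 (Or.inr ⟨o, ho, rfl⟩))
      rw [sum_rowO (by omega) (by omega) e3] at h1
      linarith
  · rintro ⟨h1, h2⟩ q hq
    rcases (hmem q).1 hq with ⟨i, hi, h⟩ | ⟨o, ho, rfl⟩
    · obtain ⟨e1, e2, e3⟩ := hok.1 _ (List.getElem_mem hi)
      have h3 := h1 i hi
      rcases h with rfl | rfl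
      · rw [sum_rowE _ (by omega) e1 e2 e3]; linarith
      · rw [sum_rowE _ (by omega) e1 e2 e3]; linarith
    · obtain ⟨e1, e2, e3⟩ := hok.2 o ho
      rw [sum_rowO (by omega) (by omega) e3]
      linarith [h2 o ho]

theorem sum_getElem {β : Type} (l : List β) (d : β) (f : β → ℤ) :
    ∑ i ∈ Finset.range l.length, f (l.getD i d) = (l.map f).sum := by
  induction l with
  | nil => simp
  | cons a l ih =>
    rw [List.length_cons, Finset.sum_range_succ', List.map_cons, List.sum_cons, ← ih]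
    simp [add_comm]

theorem obj_gi (x : Fin (gi N E O).1.length → ℤ) :
    obj (gi N E O) x = ∑ i ∈ Finset.range E.length, (E.getD i (0, 0, 0)).1 *
      ex x (N + i) ^ 2 := by
  unfold obj
  have h : ∀ j : Fin (gi N E O).1.length, ((gi N E O).1.get j).1 * x j ^ 2 +
      ((gi N E O).1.get j).2 * x j = (fun k t => ((gi N E O).1.getD k (0, 0)).1 * t ^ 2 +
        ((gi N E O).1.getD k (0, 0)).2 * t) (j : ℕ) (x j) := by
    intro j
    simp only
    rw [getD_fin]
  rw [Finset.sum_congr rfl (fun j _ => h j), sum_ex len_gi x (fun k t =>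
    ((gi N E O).1.getD k (0, 0)).1 * t ^ 2 + ((gi N E O).1.getD k (0, 0)).2 * t),
    Finset.sum_range_add, Finset.sum_eq_zero, zero_add]
  · refine Finset.sum_congr rfl fun i hi => ?_
    have hi' := Finset.mem_range.1 hi
    have e : (gi N E O).1.getD (N + i) (0, 0) = ((E.getD i (0, 0, 0)).1, 0) := by
      unfold gi
      simp only
      rw [List.getD_append_right _ _ _ _ (by simp)]
      simp only [List.length_map, List.length_range, Nat.add_sub_cancel_left]
      rw [List.getD_eq_getElem _ _ (by simpa using hi'), List.getD_eq_getElem _ _ hi']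
      simp
    rw [e]
    simp
  · intro k hk
    have hk' := Finset.mem_range.1 hk
    have e : (gi N E O).1.getD k (0, 0) = (0, 0) := by
      unfold gi
      simp only
      rw [List.getD_append _ _ _ _ (by simpa using hk')]
      rw [List.getD_eq_getElem _ _ (by simpa using hk')]
      simp
    rw [e]
    simp

theorem obj_eq (hok : Gok N E O) {x : Fin (gi N E O).1.length → ℤ} (hx : Feas (gi N E O) x) :
    obj (gi N E O) x = Qz E (ex x) := by
  rw [obj_gi]
  unfold Qz
  rw [← sum_getElem E (0, 0, 0)]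
  refine Finset.sum_congr rfl fun i hi => ?_
  have hi' := Finset.mem_range.1 hi
  rw [((feas_gi hok x).1 hx).1 i hi', List.getD_eq_getElem _ _ hi']

/-- the point of given potentials -/
def pt (N : ℕ) (E : List Ed) (O : List (ℕ × ℕ)) (z : ℕ → ℤ) (j : Fin (gi N E O).1.length) : ℤ :=
  if (j : ℕ) < N then z j else
    z (E.getD ((j : ℕ) - N) (0, 0, 0)).2.1 - z (E.getD ((j : ℕ) - N) (0, 0, 0)).2.2

theorem ex_pt_lt (z : ℕ → ℤ) {k : ℕ} (hk : k < N) : ex (pt N E O z) k = z k := by
  unfold ex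
  rw [dif_pos (by rw [len_gi]; omega)]
  unfold pt
  simp only
  rw [if_pos hk]

theorem ex_pt_ge (z : ℕ → ℤ) {i : ℕ} (hi : i < E.length) :
    ex (pt N E O z) (N + i) = z E[i].2.1 - z E[i].2.2 := by
  unfold ex
  rw [dif_pos (by rw [len_gi]; omega)]
  unfold pt
  simp only
  rw [if_neg (by omega), Nat.add_sub_cancel_left, List.getD_eq_getElem _ _ hi]

theorem feas_pt (hok : Gok N E O) {z : ℕ → ℤ} (hz : ∀ o ∈ O, z o.1 ≤ z o.2) :
    Feas (gi N E O) (pt N E O z) := by
  rw [feas_gi hok]
  constructor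
  · intro i hi
    obtain ⟨e1, e2, e3⟩ := hok.1 _ (List.getElem_mem hi)
    rw [ex_pt_ge z hi, ex_pt_lt z e1, ex_pt_lt z e2]
  · intro o ho
    obtain ⟨e1, e2, e3⟩ := hok.2 o ho
    rw [ex_pt_lt z e1, ex_pt_lt z e2]
    exact hz o ho

theorem Qz_congr (hok : Gok N E O) {z z' : ℕ → ℤ} (h : ∀ k < N, z k = z' k) :
    Qz E z = Qz E z' := by
  unfold Qz
  congr 1
  apply List.map_congr_left
  intro e he
  obtain ⟨e1, e2, e3⟩ := hok.1 _ he
  rw [h _ e1, h _ e2]

theorem obj_pt (hok : Gok N E O) {z : ℕ → ℤ} (hz : ∀ o ∈ O, z o.1 ≤ z o.2) :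
    obj (gi N E O) (pt N E O z) = Qz E z := by
  rw [obj_eq hok (feas_pt hok hz)]
  exact Qz_congr hok fun k hk => ex_pt_lt z hk

/-- unboundedness -/
theorem unb_gi (hok : Gok N E O) : Unb (gi N E O) ↔
    ∃ z : ℕ → ℤ, (∀ o ∈ O, z o.1 ≤ z o.2) ∧ Qz E z < 0 := by
  constructor
  · intro h
    obtain ⟨x, hx, hx'⟩ := h 0
    exact ⟨ex x, ((feas_gi hok x).1 hx).2, by rw [← obj_eq hok hx]; exact hx'⟩
  · rintro ⟨z, hz, hQ⟩ B
    set c : ℤ := |B| + 1 with hc
    have hc0 : 1 ≤ c := by have := abs_nonneg B; omega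
    have hz' : ∀ o ∈ O, (fun k => c * z k) o.1 ≤ (fun k => c * z k) o.2 := fun o ho =>
      mul_le_mul_of_nonneg_left (hz o ho) (by omega)
    refine ⟨pt N E O fun k => c * z k, feas_pt hok hz', ?_⟩
    rw [obj_pt hok hz']
    have e : Qz E (fun k => c * z k) = c ^ 2 * Qz E z := by
      unfold Qz
      rw [← List.sum_map_mul_left]
      congr 1
      apply List.map_congr_left
      intro e _
      ring
    rw [e]
    have h1 : Qz E z ≤ -1 := by omega
    have h2 : c ^ 2 * Qz E z ≤ -c ^ 2 := by nlinarith [sq_nonneg c]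
    have h3 : c ≤ c ^ 2 := by nlinarith
    have h4 := neg_abs_le B
    linarith

/-- if the instance is not unbounded, zero is an optimal solution -/
theorem opt_gi (hok : Gok N E O) (h : ¬Unb (gi N E O)) : Opt (gi N E O) (pt N E O 0) := by
  have hz : ∀ o ∈ O, (0 : ℕ → ℤ) o.1 ≤ (0 : ℕ → ℤ) o.2 := fun o _ => le_rfl
  refine ⟨feas_pt hok hz, fun y hy => ?_⟩
  rw [obj_pt hok hz, obj_eq hok hy]
  have h0 : Qz E 0 = 0 := by
    unfold Qz
    rw [List.sum_eq_zero]
    intro a ha
    rw [List.mem_map] at ha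
    obtain ⟨e, _, rfl⟩ := ha
    simp
  rw [h0]
  by_contra hcon
  push Not at hcon
  exact h ((unb_gi hok).2 ⟨ex y, ((feas_gi hok y).1 hy).2, hcon⟩)

/-- the number of concave variables -/
theorem concave_gi : concave (gi N E O) = (E.map fun e => if e.1 < 0 then 1 else 0).sum := by
  unfold concave
  rw [Finset.card_filter, sum_get (gi N E O).1 (fun c => if c.1 < 0 then 1 else 0)]
  unfold gi
  simp only [List.map_append, List.map_map, List.sum_append]
  have : ((List.range N).map ((fun c : ℤ × ℤ => if c.1 < 0 then 1 else 0) ∘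
      fun _ => ((0 : ℤ), (0 : ℤ)))).sum = 0 := by
    apply List.sum_eq_zero
    intro a ha
    rw [List.mem_map] at ha
    obtain ⟨e, _, rfl⟩ := ha
    simp
  rw [this, zero_add]
  rfl

end

/-! ### Total unimodularity -/

theorem tu_signs {m n m' n' : Type} {A : Matrix m n ℤ} (hA : A.IsTotallyUnimodular)
    (s : m' → ℤ) (hs : ∀ i, s i = 1 ∨ s i = -1) (f : m' → m) (g : n' → n) :
    (Matrix.of fun i j => s i * A (f i) (g j)).IsTotallyUnimodular := by
  rw [Matrix.isTotallyUnimodular_iff]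
  intro k f' g'
  have e : (Matrix.of fun i j => s i * A (f i) (g j)).submatrix f' g' =
      Matrix.of fun i j => s (f' i) * (A.submatrix (f ∘ f') (g ∘ g')) i j := rfl
  rw [e, Matrix.det_mul_column]
  have h1 : (∏ i, s (f' i)) = 1 ∨ (∏ i, s (f' i)) = -1 := by
    have : ∀ T : Finset (Fin k), (∏ i ∈ T, s (f' i)) = 1 ∨ (∏ i ∈ T, s (f' i)) = -1 := by
      intro T
      induction T using Finset.induction_on with
      | empty => left; rfl
      | insert a T ha ih =>
        rw [Finset.prod_insert ha]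
        rcases ih with h | h <;> rcases hs (f' a) with h' | h' <;> rw [h, h'] <;> norm_num
    exact this _
  have h2 := (Matrix.isTotallyUnimodular_iff A).1 hA k (f ∘ f') (g ∘ g')
  rcases h2 with ⟨t, ht⟩
  rw [← ht]
  rcases h1 with h | h <;> rw [h]
  · exact ⟨t, by simp⟩
  · exact ⟨-t, by simp⟩

/-- differences of two coordinates -/
def A0 : Matrix (Option ℕ × ℕ × ℕ) ℕ ℤ :=
  fun r j => if j = r.2.1 then -1 else if j = r.2.2 then 1 else 0

theorem A0_tu : A0.IsTotallyUnimodular := by
  apply H478R3.Rad.NW.tu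
  rintro ⟨o, u, v⟩
  unfold A0
  simp only
  refine ⟨fun j => ?_, fun j j' h h' => ?_, fun j j' h h' => ?_⟩
  · split_ifs <;> simp
  · split_ifs at h h' <;> omega
  · split_ifs at h h' <;> omega

theorem tu_gi {N : ℕ} {E : List Ed} {O : List (ℕ × ℕ)} (hok : Gok N E O) :
    (mat (gi N E O)).IsTotallyUnimodular := by
  have hA := (Matrix.fromCols_one_isTotallyUnimodular_iff A0).2 A0_tu
  set g : Fin (gi N E O).1.length → ℕ ⊕ (Option ℕ × ℕ × ℕ) := fun j =>
    if (j : ℕ) < N then Sum.inl j else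
      Sum.inr (some ((j : ℕ) - N), (E.getD ((j : ℕ) - N) (0, 0, 0)).2) with hg
  have key : ∀ r, ∃ (s : ℤ) (k : Option ℕ × ℕ × ℕ), (s = 1 ∨ s = -1) ∧
      ∀ j, mat (gi N E O) r j = s * (Matrix.fromCols A0 1) k (g j) := by
    intro r
    have hL : ∀ j : Fin (gi N E O).1.length, (j : ℕ) < N + E.length := by
      intro j
      exact lt_of_lt_of_eq j.2 len_gi
    have hrE : ∀ (i : ℕ) (hi : i < E.length) (σ : ℤ),
        ((gi N E O).2.get r).1 = rowE (N + E.length) N i σ E[i].2.1 E[i].2.2 →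
        ∀ j, mat (gi N E O) r j = σ * (Matrix.fromCols A0 1) (some i, E[i].2) (g j) := by
      intro i hi σ hr j
      obtain ⟨e1, e2, e3⟩ := hok.1 _ (List.getElem_mem hi)
      unfold mat
      rw [hr]
      unfold rowE
      rw [getD_map_range', if_pos (hL j)]
      by_cases hj : (j : ℕ) < N
      · have : g j = Sum.inl (j : ℕ) := by rw [hg]; simp only; rw [if_pos hj]
        rw [this, Matrix.fromCols_apply_inl, if_neg (by omega)]
        unfold A0
        simp only
        split_ifs <;> ring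
      · have : g j = Sum.inr (some ((j : ℕ) - N), (E.getD ((j : ℕ) - N) (0, 0, 0)).2) := by
          rw [hg]; simp only; rw [if_neg hj]
        rw [this, Matrix.fromCols_apply_inr]
        by_cases hji : (j : ℕ) = N + i
        · have e : (j : ℕ) - N = i := by omega
          rw [if_pos hji, e, List.getD_eq_getElem _ _ hi, Matrix.one_apply_eq, mul_one]
        · rw [if_neg hji, if_neg (by omega), if_neg (by omega), Matrix.one_apply_ne, mul_zero]
          intro h
          rw [Prod.mk.injEq, Option.some.injEq] at h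
          omega
    rcases (mem_rows _).1 (List.get_mem (gi N E O).2 r) with ⟨i, hi, h⟩ | ⟨o, ho, h⟩
    · rcases h with h | h
      · exact ⟨1, _, Or.inl rfl, hrE i hi 1 (by rw [h])⟩
      · exact ⟨-1, _, Or.inr rfl, hrE i hi (-1) (by rw [h])⟩
    · obtain ⟨e1, e2, e3⟩ := hok.2 o ho
      refine ⟨-1, (none, o.1, o.2), Or.inr rfl, fun j => ?_⟩
      unfold mat
      rw [h]
      unfold rowO
      simp only
      rw [getD_map_range', if_pos (hL j)]
      by_cases hj : (j : ℕ) < N
      · have : g j = Sum.inl (j : ℕ) := by rw [hg]; simp only; rw [if_pos hj]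
        rw [this, Matrix.fromCols_apply_inl]
        unfold A0
        simp only
        split_ifs <;> ring
      · have : g j = Sum.inr (some ((j : ℕ) - N), (E.getD ((j : ℕ) - N) (0, 0, 0)).2) := by
          rw [hg]; simp only; rw [if_neg hj]
        rw [this, Matrix.fromCols_apply_inr, if_neg (by omega), if_neg (by omega),
          Matrix.one_apply_ne, mul_zero]
        intro h
        rw [Prod.mk.injEq] at h
        exact absurd h.1 (by simp)
  choose s k hs hk using key
  have e : mat (gi N E O) = Matrix.of fun i j => s i * (Matrix.fromCols A0 1) (k i) (g j) := by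
    ext i j
    rw [hk i j]
    rfl
  rw [e]
  exact tu_signs hA s hs k g

end Pool.Agent.NPC.W2h57TUH
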