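import Pool.Agent.W2helper57.TUH.Corr2

set_option autoImplicit false

/-!
# The potentials of a partition
-/

namespace Pool.Agent.NPC.W2h57TUH

open Pool.Agent.NPC Pool.Agent.W2helper57.TUH Pool.Agent.NPC.W2h57TU Finset

/-- potentials given by level -/
def zf (H G : ℤ) (F : ℕ → ℕ → ℕ → ℤ) (j : ℕ) : ℤ :=
  if j = 0 then -H else if j = 1 then H else if j = 2 then G else if j = 3 then -G else
    F ((j - 4) / 3 % 2) ((j - 4) / 3 / 2) ((j - 4) % 3)

theorem zf_nd (H G : ℤ) (F : ℕ → ℕ → ℕ → ℤ) {ν τ : ℕ} (hν : ν < 2) (hτ : τ < 3) (k : ℕ) :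
    zf H G F (nd ν k τ) = F ν k τ := by
  unfold zf nd
  rw [if_neg (by omega), if_neg (by omega), if_neg (by omega), if_neg (by omega)]
  have e1 : (4 + 3 * (2 * k + ν) + τ - 4) / 3 = 2 * k + ν := by omega
  have e2 : (4 + 3 * (2 * k + ν) + τ - 4) % 3 = τ := by omega
  rw [e1, e2]
  have e3 : (2 * k + ν) % 2 = ν := by omega
  have e4 : (2 * k + ν) / 2 = k := by omega
  rw [e3, e4]

theorem En_congr {B K : ℝ} {l l' η η' : ℕ → ℝ} {n : ℕ} (hl : ∀ j ≤ n, l j = l' j)
    (hη : ∀ j < n, η j = η' j) : En B K l η n = En B K l' η' n := by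
  unfold En
  congr 1
  · exact sum_congr rfl fun j hj => by rw [hl j (by have := mem_range.1 hj; omega)]
  · congr 1
    exact sum_congr rfl fun j hj => by rw [hη j (mem_range.1 hj)]

theorem sum_items (al : List ℕ) : ∑ j ∈ range al.length, ((al.getD j 0 : ℕ) : ℤ) = al.sum := by
  rw [sum_getElem al 0 (fun x => (x : ℤ))]
  induction al with
  | nil => simp
  | cons a al ih => rw [List.map_cons, List.sum_cons, ih, List.sum_cons]; push_cast; rfl

theorem sum_pD (al : List ℕ) {s : ℤ} (hs : s = 1 ∨ s = -1) :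
    ∑ j ∈ range al.length, pD al s j ≤ 2 * pG al := by
  have e : ∀ n ≤ al.length, ∑ j ∈ range n, (pB al : ℤ) * (2 * w2 al j) =
      2 * (pB al * 2 ^ n) - 2 * pB al := by
    intro n
    induction n with
    | zero => intro _; simp
    | succ n ih =>
      intro hn
      rw [sum_range_succ, ih (by omega), w2_eq (by omega)]
      push_cast
      ring
  unfold pD
  rw [sum_add_distrib, e _ le_rfl, ← mul_sum, ← mul_sum, sum_items]
  have h1 : (al.sum : ℤ) ≤ pB al := by unfold pB; push_cast; omega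
  have h2 : (0 : ℤ) ≤ al.sum := by positivity
  have h3 : ((pG al : ℕ) : ℤ) = pB al * 2 ^ al.length := by unfold pG; push_cast; rfl
  rw [h3]
  rcases hs with rfl | rfl
  · linarith
  · linarith

/-- a partition gives potentials with negative energy -/
theorem yes_red {al : List ℕ} (hne : al ≠ []) (hp : Part al) :
    ∃ z : ℕ → ℤ, (∀ o ∈ ords al, z o.1 ≤ z o.2) ∧ Qz (eds al) z < 0 := by
  obtain ⟨m, hm⟩ : ∃ m, al.length = m + 1 :=
    ⟨al.length - 1, by have := List.length_pos_iff.2 hne; omega⟩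
  obtain ⟨π0, hπ0, hsum0⟩ := hp
  -- normalize
  set πz : ℕ → ℤ := fun k => π0 0 * π0 k with hπz
  have hz1 : πz 0 = 1 := by
    rw [hπz]; simp only; rcases hπ0 0 with h | h <;> rw [h] <;> norm_num
  have hz2 : ∀ k, πz k = 1 ∨ πz k = -1 := by
    intro k
    rw [hπz]; simp only
    rcases hπ0 0 with h | h <;> rcases hπ0 k with h' | h' <;> rw [h, h'] <;> norm_num
  have hz3 : ∑ k ∈ range al.length, πz k * (al.getD k 0 : ℤ) = 0 := by
    rw [hπz]
    simp only [mul_assoc]
    rw [← mul_sum, hsum0, mul_zero]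
  set π : ℕ → ℝ := fun k => (πz k : ℝ) with hπdef
  have hπ : Sg π := by
    refine ⟨by rw [hπdef]; simp only; rw [hz1]; norm_num, fun k => ?_⟩
    rw [hπdef]; simp only
    rcases hz2 k with h | h
    · left; rw [h]; norm_num
    · right; rw [h]; norm_num
  have hA : As (alr al) π (m + 1) = 0 := by
    rw [← hm]
    unfold As alr
    have : ((∑ k ∈ range al.length, πz k * (al.getD k 0 : ℤ) : ℤ) : ℝ) = 0 := by
      rw [hz3]; norm_num
    push_cast at this
    exact this
  have hal : ∀ j, 0 ≤ alr al j := fun j => by unfold alr; positivity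
  have hBsum : ∑ j ∈ range (m + 1), alr al j ≤ (pB al : ℝ) := by
    rw [← hm]
    have := sum_items al
    have h2 : ∑ j ∈ range al.length, alr al j = ((al.sum : ℤ) : ℝ) := by
      rw [← this]; unfold alr; push_cast; rfl
    rw [h2]
    have : (al.sum : ℤ) ≤ pB al := by unfold pB; push_cast; omega
    exact_mod_cast this
  -- the top length
  set Λ : ℤ := πz m * ∑ j ∈ range (m + 1), πz j * ((pB al : ℤ) * 2 ^ (j + 1)) with hΛ
  have hΛr : (Λ : ℝ) = π m * Ms (pB al) π (m + 1) := by
    rw [hΛ]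
    unfold Ms
    push_cast
    rfl
  obtain ⟨b1, b2⟩ := Ms_bound (B := (pB al : ℝ)) (by positivity) hπ m
  rw [← hΛr] at b1 b2
  have hG : (pG al : ℝ) = (pB al : ℝ) * 2 ^ (m + 1) := by rw [pG_real, hm]
  have hGe : (pB al : ℝ) * 2 ^ (m + 2) = 2 * pG al := by rw [hG]; ring
  rw [hGe] at b2
  have c1 : 2 * (pB al : ℤ) ≤ Λ := by exact_mod_cast b1
  have c2 : Λ ≤ 2 * pG al - 2 * pB al := by exact_mod_cast b2
  have hBp : (1 : ℤ) ≤ pB al := by exact_mod_cast pB_pos al
  have hGp : (1 : ℤ) ≤ pG al := by exact_mod_cast pG_pos al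
  have hS1 := sum_pD al (s := 1) (Or.inl rfl)
  have hS2 := sum_pD al (s := -1) (Or.inr rfl)
  -- the chains
  obtain ⟨A, B, C, hAn, hBn, g1, g2, g3⟩ := exists_cfg al.length (pD al 1)
    (pD_nonneg (Or.inl rfl)) (-(pG al : ℤ)) (-(pG al : ℤ) + Λ) (3 * pG al) (by omega) (by omega)
    (by omega)
  obtain ⟨A', B', C', hAn', hBn', g1', g2', g3'⟩ := exists_cfg al.length (pD al (-1))
    (pD_nonneg (Or.inr rfl)) (-(pG al : ℤ)) (-(pG al : ℤ) + Λ) (3 * pG al) (by omega) (by omega)
    (by omega)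
  set F : ℕ → ℕ → ℕ → ℤ := fun ν k τ =>
    if ν = 0 then (if τ = 0 then A k else if τ = 1 then B k else C k)
    else (if τ = 0 then A' k else if τ = 1 then B' k else C' k) with hF
  set z : ℕ → ℤ := zf (pH al) (pG al) F with hz
  have z0 : z 0 = -(pH al : ℤ) := rfl
  have z1 : z 1 = (pH al : ℤ) := rfl
  have z2 : z 2 = (pG al : ℤ) := rfl
  have z3 : z 3 = -(pG al : ℤ) := rfl
  have zA : ∀ k, z (nd 0 k 0) = A k := fun k => zf_nd _ _ _ (by norm_num) (by norm_num) k
  have zB : ∀ k, z (nd 0 k 1) = B k := fun k => zf_nd _ _ _ (by norm_num) (by norm_num) k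
  have zC : ∀ k, z (nd 0 k 2) = C k := fun k => zf_nd _ _ _ (by norm_num) (by norm_num) k
  have zA' : ∀ k, z (nd 1 k 0) = A' k := fun k => zf_nd _ _ _ (by norm_num) (by norm_num) k
  have zB' : ∀ k, z (nd 1 k 1) = B' k := fun k => zf_nd _ _ _ (by norm_num) (by norm_num) k
  have zC' : ∀ k, z (nd 1 k 2) = C' k := fun k => zf_nd _ _ _ (by norm_num) (by norm_num) k
  refine ⟨z, ?_, ?_⟩
  · intro o ho
    unfold ords at ho
    rw [List.mem_append, List.mem_flatMap] at ho
    rcases ho with ⟨k, hk, ho⟩ | ho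
    · rw [List.mem_range] at hk
      rw [List.mem_append] at ho
      unfold ord1 at ho
      simp only [List.mem_cons, List.not_mem_nil, or_false] at ho
      obtain ⟨_, p1, p2, p3, p4, _⟩ := g1 k hk
      obtain ⟨_, p1', p2', p3', p4', _⟩ := g1' k hk
      rcases ho with (rfl | rfl | rfl | rfl) | (rfl | rfl | rfl | rfl) <;>
        simp only [zA, zB, zC, zA', zB', zC'] <;> assumption
    · unfold ord2 at ho
      simp only [List.mem_cons, List.not_mem_nil, or_false] at ho
      rcases ho with rfl | rfl | rfl | rfl | rfl | rfl | rfl | rfl <;>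
        simp only [zA, zB, zA', zB', z0, z1, z2, z3, hAn, hBn, hAn', hBn'] <;> omega
  · -- the energy
    have hcast := Qr_cast (eds al) z
    set x : ℕ → ℝ := fun k => (z k : ℝ) with hxx
    have hE := Qr_eds (al := al) (x := x) (by rw [hxx]; simp only; rw [z0]; push_cast; rfl)
      (by rw [hxx]; simp only; rw [z1]; push_cast; rfl)
    have xA : ∀ k, x (nd 0 k 0) = A k := fun k => by rw [hxx]; simp only; rw [zA]
    have xB : ∀ k, x (nd 0 k 1) = B k := fun k => by rw [hxx]; simp only; rw [zB]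
    have xC : ∀ k, x (nd 0 k 2) = C k := fun k => by rw [hxx]; simp only; rw [zC]
    have xA' : ∀ k, x (nd 1 k 0) = A' k := fun k => by rw [hxx]; simp only; rw [zA']
    have xB' : ∀ k, x (nd 1 k 1) = B' k := fun k => by rw [hxx]; simp only; rw [zB']
    have xC' : ∀ k, x (nd 1 k 2) = C' k := fun k => by rw [hxx]; simp only; rw [zC']
    have x2 : x 2 = pG al := by rw [hxx]; simp only; rw [z2]; push_cast; rfl
    have x3 : x 3 = -(pG al : ℝ) := by rw [hxx]; simp only; rw [z3]; push_cast; rfl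
    have hη : ∀ j < al.length, hx al x 0 1 j = (0 : ℕ → ℝ) j := by
      intro j hj
      unfold hx
      rw [xC, xA, (g1 j hj).1]
      push_cast
      simp
    have hη' : ∀ j < al.length, hx al x 1 (-1) j = (0 : ℕ → ℝ) j := by
      intro j hj
      unfold hx
      rw [xC', xA', (g1' j hj).1]
      push_cast
      simp
    have hl : ∀ j < m + 1, lx x 0 j = |Dp (pB al) (alr al) 1 j - lx x 0 (j + 1)| := by
      intro j hj
      have hj' : j < al.length := by omega
      have e := (g1 j hj').2.2.2.2.2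
      have e' : ((B j - A j : ℤ) : ℝ) = ((|pD al 1 j - (B (j + 1) - A (j + 1))| : ℤ) : ℝ) := by
        rw [e]
      push_cast at e'
      rw [pD_eq hj'] at e'
      unfold lx
      rw [xA, xB, xA, xB, e']
      push_cast
      rfl
    have hl' : ∀ j < m + 1, lx x 1 j = |Dp (pB al) (alr al) (-1) j - lx x 1 (j + 1)| := by
      intro j hj
      have hj' : j < al.length := by omega
      have e := (g1' j hj').2.2.2.2.2
      have e' : ((B' j - A' j : ℤ) : ℝ) =
          ((|pD al (-1) j - (B' (j + 1) - A' (j + 1))| : ℤ) : ℝ) := by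
        rw [e]
      push_cast at e'
      rw [pD_eq hj'] at e'
      unfold lx
      rw [xA', xB', xA', xB', e']
      push_cast
      rfl
    have htop : lx x 0 (m + 1) = π m * Ms (pB al) π (m + 1) := by
      unfold lx
      rw [← hm, xA, xB, hAn, hBn, hm, ← hΛr]
      push_cast
      ring
    have htop' : lx x 1 (m + 1) = π m * Ms (pB al) π (m + 1) := by
      unfold lx
      rw [← hm, xA', xB', hAn', hBn', hm, ← hΛr]
      push_cast
      ring
    have hen := energy hal hπ hBsum hA htop htop' hl hl' (pK al)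
    rw [← htop, ← hm] at hen
    rw [En_congr (fun _ _ => rfl) hη, En_congr (fun _ _ => rfl) hη', hen, x2, x3,
      pth_real] at hE
    -- the errors
    have hGr : (1 : ℝ) ≤ pG al := by exact_mod_cast hGp
    have bd : ∀ a : ℤ, |a| ≤ 3 * (pG al : ℤ) → (a : ℝ) ^ 2 ≤ 9 * (pG al : ℝ) ^ 2 := by
      intro a ha
      have h1 : |(a : ℝ)| ≤ 3 * pG al := by exact_mod_cast ha
      rw [← sq_abs]
      calc |(a : ℝ)| ^ 2 ≤ (3 * (pG al : ℝ)) ^ 2 := pow_le_pow_left₀ (abs_nonneg _) h1 2
        _ = 9 * (pG al : ℝ) ^ 2 := by ring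
    have er1_le : ∀ (ν : ℕ) (P R : ℕ → ℤ), (∀ k, x (nd ν k 0) = P k) → (∀ k, x (nd ν k 1) = R k) →
        (∀ j ≤ al.length, |P j| ≤ 3 * (pG al : ℤ) ∧ |R j| ≤ 3 * (pG al : ℤ)) →
        er1 al x ν ≤ 36 * (pG al : ℝ) ^ 3 := by
      intro ν P R hP hR hb
      have hsb : ∑ k ∈ range (al.length + 1), ((pbe al k : ℤ) : ℝ) = 2 * pG al := by
        rw [sum_congr rfl (fun k hk => pbe_eq (by have := mem_range.1 hk; omega)), sum_be,
          pG_real]
        ring
      calc er1 al x ν ≤ ∑ k ∈ range (al.length + 1), ((pbe al k : ℤ) : ℝ) *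
            (18 * (pG al : ℝ) ^ 2) := by
            refine sum_le_sum fun k hk => ?_
            have hk' : k ≤ al.length := by have := mem_range.1 hk; omega
            rw [hP, hR]
            obtain ⟨q1, q2⟩ := hb k hk'
            have := bd _ q1
            have := bd _ q2
            exact mul_le_mul_of_nonneg_left (by linarith) (by exact_mod_cast pbe_nonneg al k)
        _ = 36 * (pG al : ℝ) ^ 3 := by rw [← sum_mul, hsb]; ring
    have er2_le : ∀ (ν : ℕ) (s : ℤ), (s = 1 ∨ s = -1) → ∀ (P R : ℕ → ℤ),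
        (∀ k, x (nd ν k 0) = P k) → (∀ k, x (nd ν k 2) = R k) →
        (∀ j ≤ al.length, |P j| ≤ 3 * (pG al : ℤ)) →
        (∀ j < al.length, |R j| ≤ 3 * (pG al : ℤ)) →
        er2 al x ν s ≤ 72 * (pG al : ℝ) ^ 5 := by
      intro ν s hs P R hP hR hb hb'
      have hsD : ∑ k ∈ range al.length, ((pD al s k : ℤ) : ℝ) ≤ 2 * pG al := by
        have := sum_pD al hs
        exact_mod_cast this
      calc er2 al x ν s ≤ ∑ k ∈ range al.length, 2 * (pK al : ℝ) * ((pD al s k : ℤ) : ℝ) *
            (18 * (pG al : ℝ) ^ 2) := by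
            refine sum_le_sum fun k hk => ?_
            have hk' := mem_range.1 hk
            rw [hP, hR]
            have := bd _ (hb (k + 1) (by omega))
            have := bd _ (hb' k hk')
            refine mul_le_mul_of_nonneg_left (by linarith) (mul_nonneg (by positivity) ?_)
            exact_mod_cast pD_nonneg hs k
        _ = 36 * (pG al : ℝ) ^ 4 * ∑ k ∈ range al.length, ((pD al s k : ℤ) : ℝ) := by
            rw [mul_sum]
            refine sum_congr rfl fun k _ => ?_
            unfold pK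
            push_cast
            ring
        _ ≤ 36 * (pG al : ℝ) ^ 4 * (2 * pG al) := mul_le_mul_of_nonneg_left hsD (by positivity)
        _ = 72 * (pG al : ℝ) ^ 5 := by ring
    have r1 := er1_le 0 A B xA xB g2
    have r2 := er1_le 1 A' B' xA' xB' g2'
    have r3 := er2_le 0 1 (Or.inl rfl) A C xA xC (fun j hj => (g2 j hj).1) g3
    have r4 := er2_le 1 (-1) (Or.inr rfl) A' C' xA' xC' (fun j hj => (g2' j hj).1) g3'
    have hH : (pH al : ℝ) = 1000 * (pG al : ℝ) ^ 5 := by unfold pH; push_cast; rfl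
    have h35 : (pG al : ℝ) ^ 3 ≤ (pG al : ℝ) ^ 5 := pow_le_pow_right₀ hGr (by norm_num)
    have hG5 : 0 < (pG al : ℝ) ^ 5 := by positivity
    have herr : er1 al x 0 + er1 al x 1 + er2 al x 0 1 + er2 al x 1 (-1) < 2 * pH al := by
      rw [hH]; linarith
    have hHp : 0 < (pH al : ℝ) := by rw [hH]; positivity
    have hneg : Qr (eds al) x < 0 := by
      rw [hE]
      have : 4 * (pH al : ℝ) * (er1 al x 0 + er1 al x 1 + er2 al x 0 1 + er2 al x 1 (-1)) <
          4 * (pH al : ℝ) * (2 * pH al) := mul_lt_mul_of_pos_left herr (by positivity)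
      nlinarith
    rw [← hcast] at hneg
    exact_mod_cast hneg

end Pool.Agent.NPC.W2h57TUH
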